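import Pool.Agent.U156.SJ.Nf
import Pool.Agent.U762.JF.Chain

set_option autoImplicit false

/-!
# The window and the chain of Jensen circles
-/

namespace Pool.Agent.U156.SJ

open Complex Filter Topology
open Pool.Agent.H471R3.GJ hiding IsL SStir
open Pool.Agent.W355.GJ (IsL SStir)
open Pool.Agent.H986R2.K4 (QQ S_AW S_NL)
open Pool.Agent.H986R2.K4.WinAux (scale mono)
open Pool.Agent.H24R2.JP (Par)

/-- No non-real or multiple zeros on the line `Re w = -t²` for `n ∈ [r0 sl t, 2 r0 sl t]`. -/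
def NoBadD (D : Dat) (r0 : ℝ) : Prop := ∃ T0 : ℝ, 2 ≤ T0 ∧ ∀ (t : ℝ) (n : ℕ), T0 ≤ t →
  r0 * sl D t ≤ n → (n : ℝ) ≤ 2 * r0 * sl D t → ∀ w : ℂ, w.re = -t ^ 2 → iteratedDeriv n (FF D) w = 0 →
    w.im = 0 ∧ iteratedDeriv (n + 1) (FF D) w ≠ 0

theorem winD {D : Dat} (h : IsL D) {y r0 : ℝ} (hy0 : 0 ≤ y) (hZ : ZBG D y) (hyr : y < r0) (hr1 : r0 ≤ 1) :
    NoBadD D r0 := by
  have h2 : S_AW := Pool.Agent.H986R2.K4.aw Pool.Agent.H986R2.K4.lapQ
  have h3 : S_NL := Pool.Agent.H986R2.K4.nl (Pool.Agent.H986R2.K4.rt Pool.Agent.H986R2.K4.lapQ)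
  have hb := Pool.Agent.W355.GJ.T.b1T D h
  obtain ⟨k0, -, hpar, -, -, -⟩ := Pool.Agent.W355.GJ.T.factsT D h
  have hkc := kc_pos h
  obtain ⟨kc, hkcd⟩ : ∃ kc : ℝ, kc = D.κ * D.c := ⟨_, rfl⟩
  rw [← hkcd] at hkc
  have hr0 : 0 < r0 := lt_of_le_of_lt hy0 hyr
  obtain ⟨κ, hκ0, hκ1, hN⟩ := nfD h hy0 hZ hyr hr1
  obtain ⟨R, hRdef⟩ : ∃ R : ℝ, R = 1 / r0 + 3 := ⟨_, rfl⟩
  have hR : 3 ≤ R := by
    have : 0 < 1 / r0 := by positivity
    linarith
  obtain ⟨κ1, η1, n1, hκ10, hκ1κ, hη1, H3⟩ := h3 κ R hκ0 hκ1 hR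
  obtain ⟨η2, n2, hη2, H2⟩ := h2 κ R κ1 hκ0 hκ1 hR hκ10 hκ1κ
  obtain ⟨T0, hT0, H1⟩ := hN R (min η1 η2) hR (lt_min hη1 hη2)
  obtain ⟨N, hNd⟩ : ∃ N : ℕ, N = max (max n1 n2) (max k0 1) := ⟨_, rfl⟩
  refine ⟨max T0 (Real.exp ((N : ℝ) / (r0 * kc))), hT0.trans (le_max_left _ _), ?_⟩
  intro t n ht hn1 hn2 w hw hw0
  have htT0 : T0 ≤ t := (le_max_left _ _).trans ht
  have htE : Real.exp ((N : ℝ) / (r0 * kc)) ≤ t := (le_max_right _ _).trans ht
  have ht2 : 2 ≤ t := hT0.trans htT0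
  have ht0 : 0 < t := by linarith
  have hlog : (N : ℝ) / (r0 * kc) ≤ Real.log t := (Real.le_log_iff_exp_le (by linarith)).2 htE
  have hsl : sl D t = kc * Real.log t := by rw [sl_eq, ← hkcd]
  have hlog0 : 0 < Real.log t := Real.log_pos (by linarith)
  have hOm : 0 < sl D t := by rw [hsl]; positivity
  have hNn : (N : ℝ) ≤ n := by
    refine le_trans ?_ hn1
    rw [div_le_iff₀ (by positivity)] at hlog
    rw [hsl]
    linarith
  have hNn' : N ≤ n := by exact_mod_cast hNn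
  have hnn1 : n1 ≤ n := ((le_max_left _ _).trans (le_max_left _ _)).trans (hNd ▸ hNn')
  have hnn2 : n2 ≤ n := ((le_max_right _ _).trans (le_max_left _ _)).trans (hNd ▸ hNn')
  have hnk0 : k0 ≤ n := ((le_max_left _ _).trans (le_max_right _ _)).trans (hNd ▸ hNn')
  have hn1' : 1 ≤ n := ((le_max_right _ _).trans (le_max_right _ _)).trans (hNd ▸ hNn')
  have hn0 : (0 : ℝ) < n := by exact_mod_cast hn1'
  set r : ℝ := n / sl D t with hr
  have hrpos : 0 < r := by positivity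
  have hrr0 : r0 ≤ r := by rw [hr, le_div_iff₀ hOm]; exact hn1
  have hrc : (r : ℂ) ≠ 0 := by exact_mod_cast hrpos.ne'
  have htc : (t : ℂ) ≠ 0 := by exact_mod_cast ht0.ne'
  have hQ := H1 t n htT0 hn1 hn2
  set x : ℝ := w.im / (2 * t * r) with hx
  have hc0 : (2 * I * t * r : ℂ) ≠ 0 := by
    simp [hrc, htc]
  have hsx : (-(t : ℂ) ^ 2) + (2 * I * t * r : ℂ) * (x : ℂ) = w := by
    have e1 : (2 * I * t * r : ℂ) * (x : ℂ) = (w.im : ℂ) * I := by
      rw [hx]; push_cast; field_simp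
    rw [e1]
    apply Complex.ext
    · rw [← ofReal_pow, ← ofReal_neg, add_re, ofReal_re, mul_I_re, ofReal_im, neg_zero, add_zero, hw]
    · rw [← ofReal_pow, ← ofReal_neg, add_im, ofReal_im, mul_I_im, ofReal_re, zero_add]
  have hder : ∀ m : ℕ, iteratedDeriv m (GD D t r) (x : ℂ) =
      (2 * I * t * r : ℂ) ^ m * iteratedDeriv m (FF D) w := by
    intro m
    have := scale hb.1 (-(t : ℂ) ^ 2) (2 * I * t * r) m (x : ℂ)
    rw [hsx] at this
    exact this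
  have hzero : iteratedDeriv n (GD D t r) (x : ℂ) = 0 := by
    rw [hder, hw0, mul_zero]
  have hPar : w ∈ Par := hpar n hnk0 w hw0
  have hPar' : w.re + w.im ^ 2 ≤ 1 / 4 := hPar
  rw [hw] at hPar'
  have him : |w.im| ≤ t + 1 / 2 := by
    refine abs_le_of_sq_le_sq ?_ (by linarith)
    nlinarith
  by_cases hc : κ1 ≤ |x|
  · exfalso
    refine H2 n _ hnn2 (mono (min_le_right _ _) hQ) x hc ?_ hzero
    have e1 : |x| = |w.im| / (2 * t * r) := by rw [hx, abs_div, abs_of_pos (by positivity : 0 < 2 * t * r)]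
    rw [e1, div_le_iff₀ (by positivity)]
    have e2 : (1 : ℝ) ≤ 1 / r0 * r := by
      rw [div_mul_eq_mul_div, one_mul, le_div_iff₀ (by positivity)]
      linarith
    have e3 : (R - 2) * (2 * t * r) = 2 * t * (1 / r0 * r) + 2 * t * r := by rw [hRdef]; ring
    rw [e3]
    nlinarith [mul_pos ht0 hrpos]
  · push Not at hc
    obtain ⟨h5, h6⟩ := H3 n _ hnn1 (mono (min_le_left _ _) hQ) x hc.le hzero
    constructor
    · rw [hx] at h5
      exact (div_eq_zero_iff.1 h5).resolve_right (by positivity)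
    · intro h7
      apply h6
      rw [hder, h7, mul_zero]

theorem descD {D : Dat} {k0 : ℕ}
    (hp : ∀ n, k0 ≤ n → ∀ x : ℂ, iteratedDeriv n (FF D) x = 0 → x ∈ Par)
    (hc : ∀ n, k0 ≤ n → ∀ x : ℂ, x.im ≠ 0 → iteratedDeriv (n + 1) (FF D) x = 0 →
      ∃ z : ℂ, z.im ≠ 0 ∧ iteratedDeriv n (FF D) z = 0 ∧ ‖x - (z.re : ℂ)‖ ≤ |z.im|)
    (m : ℕ) (hm : k0 ≤ m) : ∀ (k : ℕ) (w : ℂ) (t : ℝ), w.im ≠ 0 →
    iteratedDeriv (m + k) (FF D) w = 0 → (k : ℝ) + 1 ≤ t → w.re = -t ^ 2 →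
    ∃ (z : ℂ) (s : ℝ), z.im ≠ 0 ∧ iteratedDeriv m (FF D) z = 0 ∧ 0 ≤ s ∧ z.re = -s ^ 2 ∧ |t - s| ≤ k := by
  intro k
  induction k with
  | zero => intro w t h1 h2 h3 h4; exact ⟨w, t, h1, h2, by linarith [Nat.cast_nonneg (α := ℝ) 0], h4, by simp⟩
  | succ k ih =>
    intro w t h1 h2 h3 h4
    have hk : (0 : ℝ) ≤ k := Nat.cast_nonneg k
    push_cast at h3
    obtain ⟨z1, g1, g2, g3⟩ := hc (m + k) (by omega) w h1 h2
    obtain ⟨s1, j1, j2, j3⟩ := Pool.Agent.U762.JF.step (by linarith : (1:ℝ) ≤ t) h4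
      (hp (m + k) (by omega) z1 g2) g3
    have j3' := abs_le.1 j3
    obtain ⟨z, s, i1, i2, i3, i4, i5⟩ := ih z1 s1 g1 g2 (by linarith) j2
    refine ⟨z, s, i1, i2, i3, i4, ?_⟩
    have : |t - s| ≤ |t - s1| + |s1 - s| := abs_sub_le _ _ _
    push_cast
    linarith

theorem ev_exp {a : ℝ} (ha : 0 < a) (C : ℝ) : ∀ᶠ n : ℕ in atTop, C ≤ Real.exp (a * n) :=
  (Real.tendsto_exp_atTop.comp (tendsto_natCast_atTop_atTop.const_mul_atTop ha)).eventually_ge_atTop C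

theorem ev_lin {a : ℝ} (ha : 0 < a) (C : ℝ) : ∀ᶠ n : ℕ in atTop, C ≤ a * n :=
  (tendsto_natCast_atTop_atTop.const_mul_atTop ha).eventually_ge_atTop C

theorem ev_exp_lin {a : ℝ} (ha : 0 < a) : ∀ᶠ n : ℕ in atTop, 2 * (n : ℝ) + 2 ≤ Real.exp (a * n) := by
  filter_upwards [ev_lin ha 1, ev_lin (a := a ^ 2) (by positivity) 8, ev_lin (a := a) ha 4] with n h1 h2 h3
  have h4 := Real.quadratic_le_exp_of_nonneg (x := a * n) (by linarith)
  have hn : (0 : ℝ) ≤ n := Nat.cast_nonneg n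
  have h5 : 8 * (n : ℝ) ≤ a ^ 2 * n * n := by nlinarith
  nlinarith

/-- **Theorem.**  If all zeros of `XX` are in the strip `|Re z| ≤ y` and `α y κ c < 2`, then the zeros of
`FF^(n)` in the disc of radius `exp (α n)` are real for all large `n`. -/
theorem sharpZ {D : Dat} (h : IsL D) {y α : ℝ} (hy0 : 0 ≤ y) (hy1 : y ≤ 1 / 2)
    (hz : ∀ z : ℂ, D.XX z = 0 → z.re ≤ y) (hα : α * (y * (D.κ * D.c)) < 2) :
    ∃ N : ℕ, ∀ n : ℕ, N ≤ n → ∀ w : ℂ, ‖w‖ ≤ Real.exp (α * n) → iteratedDeriv n (FF D) w = 0 → w.im = 0 := by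
  have hkc := kc_pos h
  obtain ⟨kc, hkcd⟩ : ∃ kc : ℝ, kc = D.κ * D.c := ⟨_, rfl⟩
  rw [← hkcd] at hkc hα
  have hsl : ∀ t, sl D t = kc * Real.log t := fun t => by rw [sl_eq, ← hkcd]
  obtain ⟨N1, hN1⟩ := Pool.Agent.W355.GJ.T.chainT D h
  obtain ⟨k0, -, hpar, hcir, -, -⟩ := Pool.Agent.W355.GJ.T.factsT D h
  have ha : 0 < al D := Pool.Agent.W355.GJ.HypAux.al_pos D h
  obtain ⟨a, had⟩ : ∃ a : ℝ, a = al D := ⟨_, rfl⟩
  rw [← had] at ha hN1
  by_cases hαa : α ≤ a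
  · refine ⟨N1, fun n hn w hw hw0 => ?_⟩
    by_contra him
    have h1 := hN1 n hn w him hw0
    have hn0 : (0 : ℝ) ≤ n := Nat.cast_nonneg n
    have h2 : Real.exp (α * n) ≤ Real.exp (a * n) := by
      apply Real.exp_le_exp.2
      gcongr
    linarith
  push Not at hαa
  have hα0 : 0 < α := by linarith
  -- the window
  obtain ⟨r0, hr, hr1, hαr⟩ : ∃ r0 : ℝ, y < r0 ∧ r0 ≤ 1 ∧ α * (r0 * kc) < 2 := by
    have hy2 : y < 2 / (α * kc) := by
      rw [lt_div_iff₀ (by positivity)]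
      linarith
    have hm : y < min 1 (2 / (α * kc)) := lt_min (by linarith) hy2
    refine ⟨(y + min 1 (2 / (α * kc))) / 2, by linarith, ?_, ?_⟩
    · have := min_le_left (1 : ℝ) (2 / (α * kc))
      linarith
    · have h3 := min_le_right (1 : ℝ) (2 / (α * kc))
      have h4 : (y + min 1 (2 / (α * kc))) / 2 < 2 / (α * kc) := by linarith
      rw [lt_div_iff₀ (by positivity)] at h4
      linarith
  have hr0 : 0 < r0 := by linarith
  obtain ⟨T0, hT0, hNB⟩ := winD h hy0 (zb h hy0 hy1 hz) hr hr1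
  obtain ⟨p, hp'⟩ : ∃ p : ℝ, p = r0 * kc * α / 2 := ⟨_, rfl⟩
  have hp0 : 0 < p := by rw [hp']; positivity
  have hp1 : p < 1 := by rw [hp']; linarith
  obtain ⟨δ, hδ⟩ : ∃ δ : ℝ, δ = (1 - p) / 2 := ⟨_, rfl⟩
  have hδ0 : 0 < δ := by rw [hδ]; linarith
  have hδ1 : δ ≤ 1 / 2 := by rw [hδ]; linarith
  have hδp : (1 + δ) * p < 1 := by
    rw [hδ]
    nlinarith
  -- large `n`
  obtain ⟨N2, hN2⟩ := eventually_atTop.1 ((ev_exp (a := a / 2) (by positivity) 2).and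
    ((ev_exp (a := a / 4) (by positivity) (2 * T0)).and
    ((ev_exp_lin (a := a / 4) (by positivity)).and
    ((ev_lin (a := δ * (kc * a / 4)) (by positivity) kc).and
    ((ev_lin (a := r0 * (kc * a / 4)) (by positivity) (2 + 4 * r0 * kc)).and
    (ev_lin (a := r0 * (kc * a / 4)) (by positivity) k0))))))
  refine ⟨max N1 N2, ?_⟩
  intro n hn w hw hw0
  by_contra him
  obtain ⟨e1, e2, e3, e4, e5, e6⟩ := hN2 n ((le_max_right _ _).trans hn)
  have hlow := hN1 n ((le_max_left _ _).trans hn) w him hw0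
  have hnn : (0 : ℝ) ≤ n := Nat.cast_nonneg n
  -- `k0 ≤ n` follows from the last condition once `x ≤ n` is known
  -- first the position of `w`
  have hwn : ‖w‖ ≤ Real.exp (α * n) := hw
  by_cases hk0n : k0 ≤ n
  swap
  · -- impossible: `k0 ≤ r0 (kc a / 4) n ≤ n`
    exfalso
    apply hk0n
    have h1 : r0 * (kc * a / 4) ≤ 1 := by
      have : r0 * kc * a < r0 * kc * α := by
        apply mul_lt_mul_of_pos_left hαa
        positivity
      nlinarith
    have h2 : r0 * (kc * a / 4) * n ≤ 1 * n := by gcongr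
    have h3 : (k0 : ℝ) ≤ n := by linarith
    exact_mod_cast h3
  have hPar : w ∈ Par := hpar n hk0n w hw0
  have hPar' : w.re + w.im ^ 2 ≤ 1 / 4 := hPar
  have hnorm : ‖w‖ ^ 2 = w.re ^ 2 + w.im ^ 2 := by
    rw [Complex.sq_norm, Complex.normSq_apply]; ring
  have hsq : Real.exp (a * n) = Real.exp (a / 2 * n) ^ 2 := by
    rw [← Real.exp_nat_mul]; congr 1; push_cast; ring
  have hE1 : 1 ≤ Real.exp (a * n) := Real.one_le_exp (by positivity)
  have hA : Real.exp (a * n) ≤ |w.re - 1 / 2| := by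
    have h1 : ‖w‖ ^ 2 ≤ (w.re - 1 / 2) ^ 2 := by
      rw [hnorm]; nlinarith
    have h2 := abs_le_of_sq_le_sq (a := ‖w‖) (b := |w.re - 1 / 2|) (by rwa [sq_abs]) (abs_nonneg _)
    rw [abs_of_nonneg (norm_nonneg _)] at h2
    linarith
  have hre : w.re ≤ 1 / 4 := by nlinarith [sq_nonneg w.im]
  rw [abs_of_nonpos (by linarith)] at hA
  have hAre : w.re ≤ 1 / 2 - Real.exp (a * n) := by linarith
  have hre0 : w.re ≤ 0 := by linarith
  obtain ⟨t, ht⟩ : ∃ t : ℝ, t = Real.sqrt (-w.re) := ⟨_, rfl⟩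
  have htt0 : 0 ≤ t := by rw [ht]; exact Real.sqrt_nonneg _
  have ht2 : w.re = -t ^ 2 := by rw [ht, Real.sq_sqrt (by linarith)]; ring
  have hlo : Real.exp (a / 4 * n) ≤ t := by
    have h1 : Real.exp (a / 4 * n) ^ 2 = Real.exp (a / 2 * n) := by
      rw [← Real.exp_nat_mul]; congr 1; push_cast; ring
    have h2 : Real.exp (a / 4 * n) ^ 2 ≤ t ^ 2 := by
      rw [h1]
      rw [hsq] at hAre
      nlinarith
    exact (abs_le_of_sq_le_sq' h2 htt0).2
  have hhi : t ≤ Real.exp (α / 2 * n) := by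
    have h1 : |w.re| ≤ Real.exp (α * n) := (Complex.abs_re_le_norm w).trans hw
    rw [ht2, abs_neg, abs_of_nonneg (sq_nonneg t)] at h1
    have h2 : Real.exp (α * n) = Real.exp (α / 2 * n) ^ 2 := by
      rw [← Real.exp_nat_mul]; congr 1; push_cast; ring
    rw [h2] at h1
    exact (abs_le_of_sq_le_sq' h1 (Real.exp_pos _).le).2
  have htn : 2 * (n : ℝ) + 2 ≤ t := e3.trans hlo
  have ht0 : 0 < t := by linarith
  have hO1 : kc * a / 4 * n ≤ sl D t := by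
    have := (Real.le_log_iff_exp_le ht0).2 hlo
    rw [hsl]
    have h1 : kc * (a / 4 * n) ≤ kc * Real.log t := by gcongr
    linarith
  have hO2 : sl D t ≤ kc * α / 2 * n := by
    have := (Real.log_le_iff_le_exp ht0).2 hhi
    rw [hsl]
    have h1 : kc * Real.log t ≤ kc * (α / 2 * n) := by gcongr
    linarith
  have hO0 : 0 < sl D t := by
    have h1 : 0 < r0 * sl D t := by
      have h2 : r0 * (kc * a / 4 * n) ≤ r0 * sl D t := by gcongr
      have h3 : 0 < 2 + 4 * r0 * kc := by positivity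
      have h4 : r0 * (kc * a / 4) * n = r0 * (kc * a / 4 * n) := by ring
      linarith
    exact (mul_pos_iff_of_pos_left hr0).1 h1
  obtain ⟨x, hx⟩ : ∃ x : ℝ, x = (1 + δ) * r0 * sl D t := ⟨_, rfl⟩
  have hx0 : 0 < x := by rw [hx]; positivity
  have hxn : x ≤ n := by
    have h1 : x ≤ (1 + δ) * r0 * (kc * α / 2 * n) := by
      rw [hx]
      apply mul_le_mul_of_nonneg_left hO2
      positivity
    have h2 : (1 + δ) * r0 * (kc * α / 2 * n) = ((1 + δ) * p) * n := by rw [hp']; ring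
    rw [h2] at h1
    nlinarith
  have hmn : ⌈x⌉₊ ≤ n := Nat.ceil_le.2 hxn
  obtain ⟨m, hm⟩ : ∃ m : ℕ, m = ⌈x⌉₊ := ⟨_, rfl⟩
  rw [← hm] at hmn
  have hm1 : x ≤ m := by rw [hm]; exact Nat.le_ceil x
  have hm2 : (m : ℝ) < x + 1 := by rw [hm]; exact Nat.ceil_lt_add_one hx0.le
  have hr0sl : r0 * (kc * a / 4) * n ≤ r0 * sl D t := by
    calc r0 * (kc * a / 4) * n = r0 * (kc * a / 4 * n) := by ring
      _ ≤ r0 * sl D t := by gcongr
  have hxr : r0 * sl D t ≤ x := by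
    rw [hx]
    have : 0 < r0 * sl D t := by positivity
    nlinarith
  have hmk0 : k0 ≤ m := by
    have : (k0 : ℝ) ≤ m := by linarith
    exact_mod_cast this
  obtain ⟨k, hk⟩ := Nat.exists_eq_add_of_le hmn
  have hkn : (k : ℝ) ≤ n := by
    have : k ≤ n := by omega
    exact_mod_cast this
  rw [hk] at hw0
  obtain ⟨z, s, hz1, hz2, hs0, hzs, hts⟩ := descD hpar hcir m hmk0 k w t him hw0 (by linarith) ht2
  have hz2' := abs_le.1 hts
  have hz3 : t / 2 ≤ s := by linarith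
  have hz4 : s ≤ 2 * t := by linarith
  have hz0 : 0 < s := by linarith
  have hlog2 : Real.log 2 ≤ 1 := by
    have := Real.log_two_lt_d9
    linarith
  have hOz1 : sl D s ≤ sl D t + kc := by
    rw [hsl, hsl]
    have h1 := Real.log_le_log hz0 hz4
    rw [Real.log_mul (by norm_num) ht0.ne'] at h1
    have h2 : kc * Real.log s ≤ kc * (1 + Real.log t) := by gcongr; linarith
    linarith
  have hOz2 : sl D t - kc ≤ sl D s := by
    rw [hsl, hsl]
    have h1 := Real.log_le_log (by positivity) hz3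
    rw [Real.log_div ht0.ne' (by norm_num)] at h1
    have h2 : kc * (Real.log t - 1) ≤ kc * Real.log s := by gcongr; linarith
    linarith
  have hT : T0 ≤ s := by linarith
  refine hz1 (hNB s m hT ?_ ?_ z hzs hz2).1
  · -- lower bound
    have h1 : kc ≤ δ * sl D t := by
      refine e4.trans ?_
      calc δ * (kc * a / 4) * n = δ * (kc * a / 4 * n) := by ring
        _ ≤ δ * sl D t := by gcongr
    calc r0 * sl D s ≤ r0 * ((1 + δ) * sl D t) := mul_le_mul_of_nonneg_left (by linarith) hr0.le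
      _ = x := by rw [hx]; ring
      _ ≤ m := hm1
  · -- upper bound
    have h4 : 2 + 4 * r0 * kc ≤ r0 * sl D t := e5.trans hr0sl
    have h5 : x ≤ 3 / 2 * (r0 * sl D t) := by
      rw [hx]
      have : 0 < r0 * sl D t := by positivity
      nlinarith
    have h6 : r0 * (sl D t - kc) ≤ r0 * sl D s := mul_le_mul_of_nonneg_left hOz2 hr0.le
    nlinarith

end Pool.Agent.U156.SJ
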