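import Pool.Agent.U156.SJ.Deg
import Pool.Agent.R838.TW.Part

set_option autoImplicit false

/-!
# The range of hyperbolicity for completed L-functions with zeros in the critical strip
-/

namespace Pool.Agent.U156.SJ

open Pool.Agent.W355.LJ (Pc GF dg IsC)
open Pool.Agent.W355.LC
open Complex Filter Topology
open scoped ComplexConjugate
open Pool.Agent.W355.GJ.Crit (LogCriterion Hyp jensenP gamma)
open Pool.Agent.H471R3.GJ (NH)

/-! ### constant factors -/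

theorem gamma_mul {F : ℂ → ℂ} (hF : Differentiable ℂ F) (a : ℝ) (r k : ℕ) :
    gamma r (fun z => (a : ℂ) * F z) k = a * gamma r F k := by
  unfold gamma
  have h1 : ContDiffAt ℂ ((2 * k + r : ℕ) : WithTop ℕ∞) F 0 := hF.contDiff.contDiffAt
  have h2 := iteratedDeriv_const_mul (a : ℂ) h1
  have h3 : iteratedDeriv (2 * k + r) (fun z => (a : ℂ) * F z) 0 = (a : ℂ) * iteratedDeriv (2 * k + r) F 0 := h2
  rw [h3, Complex.re_ofReal_mul]
  ring

theorem jensen_mul {F : ℂ → ℂ} (hF : Differentiable ℂ F) (a : ℝ) (r d n : ℕ) :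
    jensenP r (fun z => (a : ℂ) * F z) d n = Polynomial.C a * jensenP r F d n := by
  unfold jensenP
  rw [Finset.mul_sum]
  refine Finset.sum_congr rfl fun j _ => ?_
  rw [gamma_mul hF]
  simp only [Polynomial.C_mul]
  ring

theorem hyp_mul {a : ℝ} (ha : a ≠ 0) {d : ℕ} {P : Polynomial ℝ} :
    Hyp d (Polynomial.C a * P) ↔ Hyp d P := by
  unfold Hyp
  rw [Polynomial.natDegree_C_mul ha]
  have hac : (a : ℂ) ≠ 0 := by exact_mod_cast ha
  have : ∀ z : ℂ, Polynomial.aeval z (Polynomial.C a * P) = 0 ↔ Polynomial.aeval z P = 0 := by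
    intro z
    rw [map_mul, Polynomial.aeval_C]
    show (a : ℂ) * _ = 0 ↔ _
    rw [mul_eq_zero, or_iff_right hac]
  simp only [this]

theorem nh_mul {a : ℝ} (ha : a ≠ 0) {P : Polynomial ℝ} : NH (Polynomial.C a * P) ↔ NH P := by
  unfold NH
  have hac : (a : ℂ) ≠ 0 := by exact_mod_cast ha
  have : ∀ z : ℂ, Polynomial.aeval z (Polynomial.C a * P) = 0 ↔ Polynomial.aeval z P = 0 := by
    intro z
    rw [map_mul, Polynomial.aeval_C]
    show (a : ℂ) * _ = 0 ↔ _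
    rw [mul_eq_zero, or_iff_right hac]
  simp only [this]
  have h2 : Polynomial.C a * P = 0 ↔ P = 0 := by
    rw [mul_eq_zero, or_iff_right (Polynomial.C_ne_zero.2 ha)]
  rw [h2]

theorem range_mul {F : ℂ → ℂ} (hF : Differentiable ℂ F) {a : ℝ} (ha : a ≠ 0) {r : ℕ} {κ : ℝ}
    (h : Range r F κ) : Range r (fun z => (a : ℂ) * F z) κ := by
  obtain ⟨N, hN⟩ := h
  refine ⟨N, fun n d h1 h2 h3 => ?_⟩
  rw [jensen_mul hF, hyp_mul ha]
  exact hN n d h1 h2 h3

theorem crit_mul {F : ℂ → ℂ} (hF : Differentiable ℂ F) {a : ℝ} (ha : a ≠ 0) {r : ℕ} {P : Prop}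
    (h : LogCriterion r F P) : LogCriterion r (fun z => (a : ℂ) * F z) P := by
  obtain ⟨C, hC, h1, h2⟩ := h
  refine ⟨C, hC, fun d n hd hn => ?_, ?_⟩
  · rw [jensen_mul hF, hyp_mul ha]
    exact h1 d n hd hn
  · rw [h2]
    simp only [jensen_mul hF, nh_mul ha]

/-! ### the function `F` at the centre `c` -/

open Classical in
/-- `F(z) = Λ(c + z)` if `Λ` is real on the real axis, and `F(z) = Λ(c + z) conj Λ(c + conj z)` otherwise -/
noncomputable def FC (c : ℂ) (Λ : ℂ → ℂ) (z : ℂ) : ℂ :=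
  if ∀ s : ℂ, Λ (conj s) = conj (Λ s) then Λ (c + z) else Λ (c + z) * conj (Λ (c + conj z))

theorem FL_diff {Λ : ℂ → ℂ} (h : Differentiable ℂ Λ) : Differentiable ℂ (FL Λ) := by
  by_cases hs : ∀ s : ℂ, Λ (conj s) = conj (Λ s)
  · have hF : FL Λ = fun z => Λ (1 / 2 + z) := by
      funext z
      unfold FL
      rw [if_pos hs]
    rw [hF]
    exact h.comp (differentiable_id.const_add _)
  · have hF : FL Λ = fun z => Λ (1 / 2 + z) * st Λ (1 / 2 + z) := by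
      funext z
      unfold FL st
      rw [if_neg hs]
      congr 3
      rw [map_add, map_div₀, map_one, map_ofNat]
    rw [hF]
    exact (h.comp (differentiable_id.const_add _)).mul ((st_diff h).comp (differentiable_id.const_add _))

/-- the functions `Λ(s) = K⁻¹ Λ₀(s - c + 1/2)` -/
theorem real_iff {Λ₀ Λ : ℂ → ℂ} {c : ℂ} (hc : conj c = c) {K : ℝ} (hK : K ≠ 0)
    (h : ∀ s, Λ s = (K : ℂ) * Λ₀ (s - c + 1 / 2)) :
    (∀ s : ℂ, Λ (conj s) = conj (Λ s)) ↔ (∀ s : ℂ, Λ₀ (conj s) = conj (Λ₀ s)) := by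
  have hKc : (K : ℂ) ≠ 0 := by exact_mod_cast hK
  have e : ∀ s : ℂ, conj s - c + 1 / 2 = conj (s - c + 1 / 2) := by
    intro s
    rw [map_add, map_sub, hc, map_div₀, map_one, map_ofNat]
  constructor
  · intro h1 s
    have h2 := h1 (s + c - 1 / 2)
    rw [h, h, e, map_mul, Complex.conj_ofReal] at h2
    rw [show s + c - 1 / 2 - c + 1 / 2 = s by ring] at h2
    exact mul_left_cancel₀ hKc h2
  · intro h1 s
    rw [h, h, e, h1, map_mul, Complex.conj_ofReal]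

theorem FC_eq {Λ₀ Λ : ℂ → ℂ} {c : ℂ} (hc : conj c = c) {K : ℝ} (hK : 0 < K)
    (h : ∀ s, Λ s = (K : ℂ) * Λ₀ (s - c + 1 / 2)) :
    ∃ a : ℝ, 0 < a ∧ FC c Λ = fun z => (a : ℂ) * FL Λ₀ z := by
  have hri := real_iff hc hK.ne' h
  have e1 : ∀ z, Λ (c + z) = (K : ℂ) * Λ₀ (1 / 2 + z) := by
    intro z
    rw [h]
    congr 2
    ring
  by_cases hs : ∀ s : ℂ, Λ (conj s) = conj (Λ s)
  · refine ⟨K, hK, ?_⟩
    funext z
    unfold FC FL
    rw [if_pos hs, if_pos (hri.1 hs), e1]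
  · refine ⟨K ^ 2, by positivity, ?_⟩
    funext z
    unfold FC FL
    rw [if_neg hs, if_neg (fun h => hs (hri.2 h)), e1, e1, map_mul, Complex.conj_ofReal]
    push_cast
    ring

theorem dF_eq {Λ₀ Λ : ℂ → ℂ} {c : ℂ} (hc : conj c = c) {K : ℝ} (hK : 0 < K)
    (h : ∀ s, Λ s = (K : ℂ) * Λ₀ (s - c + 1 / 2)) (m : ℕ) : dF m Λ = dF m Λ₀ := by
  have hri := real_iff hc hK.ne' h
  unfold dF
  by_cases hs : ∀ s : ℂ, Λ (conj s) = conj (Λ s)
  · rw [if_pos hs, if_pos (hri.1 hs)]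
  · rw [if_neg hs, if_neg (fun h => hs (hri.2 h))]

/-! ### packages -/

/-- `G` is, for `Re s > σ`, an L-function of degree `m` with centre `c`, completed up to a positive
constant, whose zeros are in the critical strip -/
def Cp (m : ℕ) (σ : ℝ) (c : ℂ) (G : ℂ → ℂ) : Prop :=
  ∃ (w : ℂ) (Λ₀ : ℂ → ℂ) (K : ℝ), GoodN m w Λ₀ Λ₀ ∧ (∀ s : ℂ, Λ₀ s = 0 → |s.re - 1 / 2| ≤ 1 / 2) ∧ 0 < K ∧
    ∀ s : ℂ, σ < s.re → Λ₀ (s - c + 1 / 2) = (K : ℂ) * G s

theorem GoodN.self {m : ℕ} {w : ℂ} {Λ G : ℂ → ℂ} (h : GoodN m w Λ G) : GoodN m w Λ Λ := by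
  obtain ⟨l, μ, M, b, n, d, u, c, e⟩ := h
  exact ⟨l, μ, M, b, n, d, u, c, 0, fun _ _ => rfl⟩

theorem Cp.mul {m1 m2 : ℕ} {σ : ℝ} {c : ℂ} {G1 G2 : ℂ → ℂ} (h1 : Cp m1 σ c G1) (h2 : Cp m2 σ c G2) :
    Cp (m1 + m2) σ c (fun s => G1 s * G2 s) := by
  obtain ⟨w1, L1, K1, g1, z1, k1, e1⟩ := h1
  obtain ⟨w2, L2, K2, g2, z2, k2, e2⟩ := h2
  refine ⟨w1 * w2, fun s => L1 s * L2 s, K1 * K2, goodN_mul g1 g2, fun s hs => ?_, by positivity, fun s hs => ?_⟩
  · rcases mul_eq_zero.1 hs with h | h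
    · exact z1 s h
    · exact z2 s h
  · simp only
    rw [e1 s hs, e2 s hs]
    push_cast
    ring

theorem cp_list {ι : Type} {σ : ℝ} {c : ℂ} (G : ι → ℂ → ℂ) (dm : ι → ℕ) (h : ∀ i, Cp (dm i) σ c (G i))
    (l : List ι) (hl : l ≠ []) : Cp (l.map dm).sum σ c (fun s => (l.map fun i => G i s).prod) := by
  induction l with
  | nil => exact absurd rfl hl
  | cons i l ih =>
    rcases eq_or_ne l [] with rfl | hne
    · have e : (fun s => (([i] : List ι).map fun i => G i s).prod) = G i := by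
        funext s
        simp
      rw [e]
      simpa using h i
    · have e : (fun s => ((i :: l).map fun i => G i s).prod) =
          fun s => G i s * (l.map fun i => G i s).prod := by
        funext s
        simp
      rw [e, List.map_cons, List.sum_cons]
      exact (h i).mul (ih hne)

theorem cp_prod {ι : Type} [Fintype ι] [Nonempty ι] {σ : ℝ} {c : ℂ} (G : ι → ℂ → ℂ) (dm : ι → ℕ)
    (h : ∀ i, Cp (dm i) σ c (G i)) : Cp (∑ i, dm i) σ c (fun s => ∏ i, G i s) := by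
  have h1 := cp_list G dm h (Finset.univ : Finset ι).toList (by
    intro h0
    rw [Finset.toList_eq_nil] at h0
    exact Finset.univ_nonempty.ne_empty h0)
  simpa only [Finset.prod_map_toList, Finset.sum_map_toList] using h1

/-- from the completed function of the density theorems -/
theorem cp_of {m : ℕ} {σ : ℝ} {c : ℂ} {X G G₀ Λ₀ : ℂ → ℂ} {v w : ℂ} {K : ℝ} (hX : Differentiable ℂ X)
    (hz : ∀ z : ℂ, X z = 0 → |z.re| ≤ 1 / 2) (hv : v ≠ 0) (hXG : ∀ s : ℂ, σ < s.re → X (s - c) = v * G s)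
    (hg : GoodN m w Λ₀ G₀) (hK : 0 < K) (hG : ∃ σ' : ℝ, ∀ s : ℂ, σ' < s.re → G₀ (s - c + 1 / 2) = (K : ℂ) * G s) :
    Cp m σ c G := by
  obtain ⟨h1, ⟨σ1, h2⟩, h3, h4, -⟩ := goodN_final hg
  obtain ⟨σ', hσ'⟩ := hG
  have hKc : (K : ℂ) ≠ 0 := by exact_mod_cast hK.ne'
  have key : ∀ s, Λ₀ (s + 1 / 2) = (K / v) * X s := by
    have e := Pool.Agent.R838.TW.uniq (Λ := fun s => (K / v : ℂ) * X s) (Λ' := fun s => Λ₀ (s + 1 / 2))
      (G := fun s => (K / v : ℂ) * X s) (hX.const_mul _) (h1.comp (differentiable_id.add_const _))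
      ⟨0, fun s _ => rfl⟩ ⟨max (max (σ - c.re) (σ' - c.re)) σ1, fun s hs => ?_⟩
    · exact fun s => congrFun e s
    · have a1 : σ < (s + c).re := by
        have := ((le_max_left _ _).trans (le_max_left _ _)).trans_lt hs
        rw [Complex.add_re]
        linarith
      have a2 : σ' < (s + c).re := by
        have := ((le_max_right _ _).trans (le_max_left _ _)).trans_lt hs
        rw [Complex.add_re]
        linarith
      have a3 : σ1 ≤ (s + 1 / 2).re := by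
        have := (le_max_right _ _).trans_lt hs
        rw [Complex.add_re]
        norm_num
        linarith
      have b1 := hXG (s + c) a1
      have b2 := hσ' (s + c) a2
      rw [add_sub_cancel_right] at b1 b2
      show Λ₀ (s + 1 / 2) = (K / v) * X s
      rw [h2 _ a3, b2, b1]
      field_simp
  refine ⟨w, Λ₀, K, hg.self, fun s hs => ?_, hK, fun s hs => ?_⟩
  · have h5 := key (s - 1 / 2)
    rw [sub_add_cancel, hs] at h5
    have h6 : X (s - 1 / 2) = 0 := by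
      rcases mul_eq_zero.1 h5.symm with h7 | h7
      · exact absurd h7 (div_ne_zero hKc hv)
      · exact h7
    have h8 := hz _ h6
    have e : (s - 1 / 2 : ℂ).re = s.re - 1 / 2 := by simp
    rw [e] at h8
    exact h8
  · rw [key, hXG s hs]
    field_simp

/-- **The final form.** -/
theorem cp_final {m : ℕ} {σ : ℝ} {c : ℂ} (hc : c.im = 0) {G : ℂ → ℂ} (h : Cp m σ c G) :
    ∃ Λ : ℂ → ℂ, Differentiable ℂ Λ ∧ (∀ s : ℂ, σ < s.re → Λ s = G s) ∧
      (∃ W : ℂ, ‖W‖ = 1 ∧ ∀ s : ℂ, Λ (2 * c - s) = W * conj (Λ (conj s))) ∧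
      (∀ s : ℂ, Λ s = 0 → |s.re - c.re| ≤ 1 / 2) ∧
      ∃ r : ℕ, r ≤ 1 ∧ (∀ z : ℂ, FC c Λ (-z) = (-1) ^ r * FC c Λ z) ∧
        (∀ t κ : ℝ, 0 ≤ t → (∀ s : ℂ, Λ s = 0 → s.re ≤ c.re + t) → 0 < κ → (dF m Λ : ℝ) * t / 4 < κ →
          Range r (FC c Λ) κ) ∧ LogCriterion r (FC c Λ) (∀ s : ℂ, Λ s = 0 → s.re = c.re) := by
  obtain ⟨w, Λ₀, K, hg, hz, hK, hG⟩ := h
  obtain ⟨h1, -, h3, h4, r, hr, h5, h6, h7⟩ := goodN_final hg
  have hKc : (K : ℂ) ≠ 0 := by exact_mod_cast hK.ne'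
  have hcc : conj c = c := by
    apply Complex.ext
    · simp
    · simp [hc]
  have hi : 0 < K⁻¹ := inv_pos.2 hK
  obtain ⟨Λ, hΛ⟩ : ∃ Λ : ℂ → ℂ, Λ = fun s => ((K⁻¹ : ℝ) : ℂ) * Λ₀ (s - c + 1 / 2) := ⟨_, rfl⟩
  have hΛv : ∀ s, Λ s = ((K⁻¹ : ℝ) : ℂ) * Λ₀ (s - c + 1 / 2) := fun s => by rw [hΛ]
  have hΛz : ∀ s, Λ s = 0 ↔ Λ₀ (s - c + 1 / 2) = 0 := by
    intro s
    rw [hΛv, mul_eq_zero, or_iff_right]
    exact_mod_cast hi.ne'
  have hre : ∀ s : ℂ, (s - c + 1 / 2).re = s.re - c.re + 1 / 2 := by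
    intro s
    simp
  have hre' : ∀ s : ℂ, (s + c - 1 / 2).re = s.re + c.re - 1 / 2 := by
    intro s
    simp
  have hback : ∀ s : ℂ, Λ₀ s = 0 → Λ (s + c - 1 / 2) = 0 := by
    intro s hs
    rw [hΛz, show s + c - 1 / 2 - c + 1 / 2 = s by ring]
    exact hs
  obtain ⟨a, ha, hFC⟩ := FC_eq hcc hi hΛv
  have hd := dF_eq hcc hi hΛv m
  have hFd := FL_diff h1
  refine ⟨Λ, ?_, fun s hs => ?_, ⟨w, h3, fun s => ?_⟩, fun s hs => ?_, r, hr, fun z => ?_,
    fun t κ ht hzt hκ0 hκ => ?_, ?_⟩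
  · rw [hΛ]
    exact (h1.comp ((differentiable_id.sub_const _).add_const _)).const_mul _
  · rw [hΛv, hG s hs]
    push_cast
    field_simp
  · have e1 : 2 * c - s - c + 1 / 2 = 1 - (s - c + 1 / 2) := by ring
    have e2 : conj s - c + 1 / 2 = conj (s - c + 1 / 2) := by
      rw [map_add, map_sub, hcc, map_div₀, map_one, map_ofNat]
    rw [hΛv, hΛv, e1, h4, e2, map_mul, Complex.conj_ofReal]
    ring
  · have h8 := hz _ ((hΛz s).1 hs)
    rw [hre] at h8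
    rw [show s.re - c.re = s.re - c.re + 1 / 2 - 1 / 2 by ring]
    exact h8
  · rw [hFC]
    simp only
    rw [h5]
    ring
  · rw [hFC]
    refine range_mul hFd ha.ne' (h7 (1 / 2 + t) κ (by linarith) (fun s hs => ?_) hκ0 ?_)
    · have h8 := hzt _ (hback s hs)
      rw [hre'] at h8
      linarith
    · rw [← hd, add_sub_cancel_left]
      exact hκ
  · rw [hFC]
    have h8 := crit_mul hFd ha.ne' h6
    have e : (∀ s : ℂ, Λ s = 0 → s.re = c.re) ↔ (∀ s : ℂ, Λ₀ s = 0 → s.re = 1 / 2) := by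
      constructor
      · intro h9 s hs
        have h10 := h9 _ (hback s hs)
        rw [hre'] at h10
        linarith
      · intro h9 s hs
        have h10 := h9 _ ((hΛz s).1 hs)
        rw [hre] at h10
        linarith
    rw [show (∀ s : ℂ, Λ s = 0 → s.re = c.re) = (∀ s : ℂ, Λ₀ s = 0 → s.re = 1 / 2) from propext e]
    exact h8

end Pool.Agent.U156.SJ
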