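import Pool.Agent.U156.SJ.Range
import Pool.Agent.W355.LC.Lst

set_option autoImplicit false

/-!
# The range of hyperbolicity for completed L-functions, with the degree
-/

namespace Pool.Agent.U156.SJ

open Pool.Agent.W355.LJ (Pc GF dg IsC)
open Pool.Agent.W355.LC

open Complex Filter Topology
open scoped ComplexConjugate
open Pool.Agent.W355.GJ.Crit (Scale LogCriterion logCriterion Hyp jensenP gamma)
open Pool.Agent.H471R3.GJ (NH)

theorem rangeL {D : LD} (h : IsLD D) {θ κ : ℝ} (hθ : 1 / 2 ≤ θ) (hz : ∀ s : ℂ, D.Λ s = 0 → s.re ≤ θ)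
    (hκ0 : 0 < κ) (hκ : (dg (D.p :: D.l) : ℝ) * (θ - 1 / 2) / 4 < κ) :
    Range (rL D) (fun z => D.Λ (1 / 2 + z)) κ := by
  have hk : 0 < kL D := by linarith [kL_ge h]
  obtain ⟨y, hy⟩ : ∃ y : ℝ, y = min ((θ - 1 / 2) / kL D) (1 / 2) := ⟨_, rfl⟩
  have hy0 : 0 ≤ y := by
    rw [hy]
    refine le_min ?_ (by norm_num)
    apply div_nonneg _ hk.le
    linarith
  refine range_scale (scaleL h) (y := y) hy0 (by rw [hy]; exact min_le_right _ _) ?_ hκ0 ?_
  · intro z hz0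
    rw [hy]
    refine le_min ?_ ?_
    · have h4 := XX_part1 h z
      rw [hz0, mul_zero] at h4
      have h5 := hz _ h4.symm
      rw [sL_re] at h5
      rw [le_div_iff₀ hk]
      linarith
    · exact (le_abs_self _).trans (Pool.Agent.W355.LC.XX_zero h z hz0)
  · have hκD : (datL D).κ = kL D := rfl
    have hcD : (datL D).c = (dg (D.p :: D.l) : ℝ) / 2 := rfl
    rw [hκD, hcD]
    have hy1 : y * kL D ≤ θ - 1 / 2 := by
      rw [← le_div_iff₀ hk, hy]
      exact min_le_left _ _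
    have hd : (0 : ℝ) ≤ (dg (D.p :: D.l) : ℝ) := Nat.cast_nonneg _
    have h6 : y * kL D * (dg (D.p :: D.l) : ℝ) ≤ (θ - 1 / 2) * (dg (D.p :: D.l) : ℝ) := by gcongr
    refine lt_of_le_of_lt ?_ hκ
    nlinarith

/-- the sharp statement for a function `Λ` with centre `1/2`, degree `m` and parity `r` of `F` -/
def Shp (m : ℕ) (r : ℕ) (F Λ : ℂ → ℂ) : Prop :=
  LogCriterion r F (∀ s : ℂ, Λ s = 0 → s.re = 1 / 2) ∧
    ∀ θ κ : ℝ, 1 / 2 ≤ θ → (∀ s : ℂ, Λ s = 0 → s.re ≤ θ) → 0 < κ → (m : ℝ) * (θ - 1 / 2) / 4 < κ → Range r F κ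

/-- the list of factors of `toLD` -/
theorem toLD' {l : List Pc} {L : ℝ} {b : ℕ → ℂ} {w : ℂ} {Λ : ℂ → ℂ} (h : IsCC l L b w Λ)
    (hb : ∀ n, conj (b n) = b n) (hl : l ≠ []) :
    ∃ D : LD, IsLD D ∧ D.Λ = Λ ∧ (D.ε : ℂ) = w ∧ D.p :: D.l = l := by
  obtain ⟨p, l', rfl⟩ := List.exists_cons_of_ne_nil hl
  obtain ⟨σ0, hd⟩ := h.dir
  obtain ⟨B, β, hB, hβ, hbb⟩ := bd_norm h.one h.bd
  have hre : ∀ n, b n = (((b n).re : ℝ) : ℂ) := fun n => (Complex.conj_eq_iff_re.1 (hb n)).symm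
  have h1 := h.real_star hb
  have hw := h.sign hb hl
  have hwre : ((w.re : ℝ) : ℂ) = w := by
    rcases hw with h2 | h2 <;> rw [h2] <;> simp
  refine ⟨⟨p, l', L, fun n => (b n).re, β, B, max σ0 (β + 2), w.re, Λ⟩, ?_, rfl, hwre, rfl⟩
  refine ⟨⟨hβ, hB, by simp [h.one], fun m hm =>
    (Complex.abs_re_le_norm _).trans (hbb m hm)⟩, ?_, h.entire, fun s => ?_, h.order, fun s hs => ?_⟩
  · rcases hw with h2 | h2
    · left
      simp only
      rw [h2, Complex.one_re]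
    · right
      simp only
      rw [h2, Complex.neg_re, Complex.one_re]
  · simp only
    rw [hwre, h.fe]
    have := congrFun h1 s
    unfold st at this
    rw [this]
  · simp only
    have h2 : σ0 ≤ s.re := (le_max_left _ _).trans hs
    have h3 : β + 2 ≤ s.re := (le_max_right _ _).trans hs
    rw [hd s h2, lseries_tsum (summ_of_bd hbb (by linarith))]
    congr 1
    refine tsum_congr fun m => ?_
    rw [← hre]

theorem shpR {l : List Pc} {L : ℝ} {b : ℕ → ℂ} {w : ℂ} {Λ : ℂ → ℂ} (h : IsCC l L b w Λ)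
    (hb : ∀ n, conj (b n) = b n) (hl : l ≠ []) :
    ∃ r : ℕ, r ≤ 1 ∧ (∀ z : ℂ, Λ (1 / 2 + -z) = (-1) ^ r * Λ (1 / 2 + z)) ∧
      Shp (dg l) r (fun z => Λ (1 / 2 + z)) Λ := by
  obtain ⟨D, hD, hD1, hD2, hD3⟩ := toLD' h hb hl
  have h1 := critL hD
  have h2 := parL hD
  rw [hD1] at h1 h2
  refine ⟨rL D, rL_le D, h2, h1, ?_⟩
  intro θ κ hθ hz hκ0 hκ
  have h3 := rangeL hD (θ := θ) (κ := κ) hθ (by rw [hD1]; exact hz) hκ0 (by rw [hD3]; exact hκ)
  rw [hD1] at h3
  exact h3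

theorem shpS {l : List Pc} {M : ℝ} {b : ℕ → ℂ} {w : ℂ} {Λ : ℂ → ℂ} (h : IsCC l M b w Λ)
    (hl : l ≠ []) (hs : st Λ = Λ) :
    ∃ r : ℕ, r ≤ 1 ∧ (∀ z : ℂ, Λ (1 / 2 + -z) = (-1) ^ r * Λ (1 / 2 + z)) ∧
      Shp (dg l) r (fun z => Λ (1 / 2 + z)) Λ := by
  classical
  have h1 : IsCC l M (fun n => if n = 0 then 0 else b n) w Λ := by
    refine h.congr' fun n hn => ?_
    rw [if_neg (by omega)]
  refine shpR h1 (fun n => ?_) hl
  by_cases hn : n = 0
  · simp [hn]
  · rw [if_neg hn]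
    exact h.real_of_star hl hs n (Nat.one_le_iff_ne_zero.2 hn)

/-- A multiset of parameters closed under conjugation is a sum of real numbers and pairs. -/
theorem pc_of_closed' (n : ℕ) : ∀ S : Multiset ℂ, S.card = n → S.map conj = S →
    ∃ l : List Pc, (S ≠ 0 → l ≠ []) ∧ dg l = S.card ∧
      ∀ s : ℂ, GF l s = (S.map fun m => Gammaℝ (s + m)).prod := by
  induction n using Nat.strong_induction_on with
  | _ n ih =>
    intro S hS hc
    rcases Multiset.empty_or_exists_mem S with rfl | ⟨m, hm⟩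
    · refine ⟨[], fun h => absurd rfl h, rfl, fun s => ?_⟩
      unfold GF
      simp
    · obtain ⟨T, rfl⟩ := Multiset.exists_cons_of_mem hm
      rw [Multiset.card_cons] at hS
      by_cases hr : conj m = m
      · have hT : T.map conj = T := by
          rw [Multiset.map_cons, hr] at hc
          exact (Multiset.cons_inj_right m).1 hc
        obtain ⟨l, -, hd, hl⟩ := ih T.card (by omega) T rfl hT
        refine ⟨Pc.one m.re :: l, fun _ => by simp, ?_, fun s => ?_⟩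
        · rw [Multiset.card_cons, ← hd]
          unfold dg
          rw [List.map_cons, List.sum_cons]
          show 1 + _ = _
          omega
        have e1 : GF (Pc.one m.re :: l) s = Gammaℝ (s + (m.re : ℂ)) * GF l s := by
          unfold GF
          rw [List.map_cons, List.prod_cons]
          rfl
        rw [e1, hl, Multiset.map_cons, Multiset.prod_cons, Complex.conj_eq_iff_re.1 hr]
      · have h1 : conj m ∈ T := by
          have h2 : conj m ∈ (m ::ₘ T) := by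
            rw [← hc]
            exact Multiset.mem_map_of_mem _ (Multiset.mem_cons_self _ _)
          rcases Multiset.mem_cons.1 h2 with h3 | h3
          · exact absurd h3 hr
          · exact h3
        obtain ⟨U, rfl⟩ := Multiset.exists_cons_of_mem h1
        have hU : U.map conj = U := by
          rw [Multiset.map_cons, Multiset.map_cons, Complex.conj_conj, Multiset.cons_swap] at hc
          exact (Multiset.cons_inj_right _).1 ((Multiset.cons_inj_right _).1 hc)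
        rw [Multiset.card_cons] at hS
        obtain ⟨l, -, hd, hl⟩ := ih U.card (by omega) U rfl hU
        refine ⟨Pc.two m.re m.im :: l, fun _ => by simp, ?_, fun s => ?_⟩
        · rw [Multiset.card_cons, Multiset.card_cons, ← hd]
          unfold dg
          rw [List.map_cons, List.sum_cons]
          show 2 + _ = _
          omega
        have e1 : GF (Pc.two m.re m.im :: l) s = (Gammaℝ (s + ((m.re : ℂ) + m.im * I)) *
            Gammaℝ (s + ((m.re : ℂ) - m.im * I))) * GF l s := by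
          unfold GF
          rw [List.map_cons, List.prod_cons]
          rfl
        have e2 : (m.re : ℂ) + m.im * I = m := Complex.re_add_im m
        have e3 : (m.re : ℂ) - m.im * I = conj m := by
          apply Complex.ext <;> simp
        rw [e1, hl, Multiset.map_cons, Multiset.prod_cons, Multiset.map_cons, Multiset.prod_cons, e2, e3,
          mul_assoc]

theorem dg_append (l l' : List Pc) : dg (l ++ l') = dg l + dg l' := by
  unfold dg
  rw [List.map_append, List.sum_append]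

theorem dg_pr (μ : List ℂ) : dg (μ.map pr) = 2 * μ.length := by
  induction μ with
  | nil => rfl
  | cons m μ ih =>
    have : dg (pr m :: μ.map pr) = 2 + dg (μ.map pr) := by
      unfold dg
      rw [List.map_cons, List.sum_cons]
      rfl
    rw [List.map_cons, this, ih, List.length_cons]
    ring

/-- Self-dual completed L-functions have real and paired parameters. -/
theorem toCC' {l : List Pc} {μ : List ℂ} {M : ℝ} {b : ℕ → ℂ} {w : ℂ} {Λ : ℂ → ℂ}
    (h : IsA l μ M b w Λ) (hs : st Λ = Λ) (hl : l ≠ [] ∨ μ ≠ []) :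
    ∃ l' : List Pc, l' ≠ [] ∧ dg l' = dg l + μ.length ∧ IsCC l' M b w Λ := by
  obtain ⟨σ1, hd1⟩ := h.dir
  obtain ⟨σ2, hd2⟩ := h.star_dir
  obtain ⟨σ3, hne⟩ := GF_ne_large l
  have hcl := closed_of_real (μ := μ) h.one h.bd ⟨max (max σ1 σ2) σ3, fun x hx => by
    have a1 : σ1 ≤ x := ((le_max_left _ _).trans (le_max_left _ _)).trans hx
    have a2 : σ2 ≤ x := ((le_max_right _ _).trans (le_max_left _ _)).trans hx
    have a3 : σ3 ≤ x := (le_max_right _ _).trans hx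
    have e1 := hd1 (x : ℂ) (by rw [Complex.ofReal_re]; exact a1)
    have e2 := hd2 (x : ℂ) (by rw [Complex.ofReal_re]; exact a2)
    rw [hs, e1] at e2
    have hne' : cexp ((x : ℂ) * (M : ℂ)) * GF l (x : ℂ) ≠ 0 :=
      mul_ne_zero (Complex.exp_ne_zero _) (hne x a3)
    refine mul_left_cancel₀ hne' ?_
    linear_combination e2⟩
  obtain ⟨l', hl', hdl', hG⟩ := pc_of_closed' (μ : Multiset ℂ).card (μ : Multiset ℂ) rfl
    (by rw [Multiset.map_coe]; exact hcl)
  have hG' : ∀ s, GF l' s = GM μ s := by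
    intro s
    rw [hG, Multiset.map_coe, Multiset.prod_coe]
    rfl
  refine ⟨l ++ l', ?_, ?_, h.one, h.bd, h.entire, h.fe, h.order, σ1, fun s hs1 => ?_⟩
  · rcases hl with hl | hl
    · intro h0
      exact hl (List.append_eq_nil_iff.1 h0).1
    · intro h0
      refine hl' ?_ (List.append_eq_nil_iff.1 h0).2
      intro h1
      exact hl (Multiset.coe_eq_zero _ |>.1 h1)
  · rw [dg_append, hdl', Multiset.coe_card]
  · rw [hd1 s hs1, GF_append, hG']

open Classical in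
/-- the degree of `FL Λ` -/
noncomputable def dF (m : ℕ) (Λ : ℂ → ℂ) : ℕ := if ∀ s : ℂ, Λ (conj s) = conj (Λ s) then m else 2 * m

theorem zero_double (Λ : ℂ → ℂ) (θ : ℝ) : (∀ s : ℂ, Λ s * st Λ s = 0 → s.re ≤ θ) ↔
    (∀ s : ℂ, Λ s = 0 → s.re ≤ θ) := by
  constructor
  · intro h s hs
    exact h s (by rw [hs, zero_mul])
  · intro h s hs
    rcases mul_eq_zero.1 hs with h1 | h1
    · exact h s h1
    · unfold st at h1
      have h2 := h (conj s) ((map_eq_zero _).1 h1)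
      rwa [Complex.conj_re] at h2

open Classical in
/-- **The sharp range** for completed L-functions of degree `dg l + μ.length`. -/
theorem shpA {l : List Pc} {μ : List ℂ} {M : ℝ} {b : ℕ → ℂ} {w : ℂ} {Λ : ℂ → ℂ}
    (h : IsA l μ M b w Λ) (hl : l ≠ [] ∨ μ ≠ []) :
    ∃ r : ℕ, r ≤ 1 ∧ (∀ z : ℂ, FL Λ (-z) = (-1) ^ r * FL Λ z) ∧
      Shp (dF (dg l + μ.length) Λ) r (FL Λ) Λ := by
  by_cases hs : ∀ s : ℂ, Λ (conj s) = conj (Λ s)
  · have hst : st Λ = Λ := by
      funext s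
      unfold st
      rw [hs, Complex.conj_conj]
    have hF : FL Λ = fun z => Λ (1 / 2 + z) := by
      funext z
      unfold FL
      rw [if_pos hs]
    have hd : dF (dg l + μ.length) Λ = dg l + μ.length := by
      unfold dF
      rw [if_pos hs]
    rw [hF, hd]
    obtain ⟨l', hl', hdl, hcc⟩ := toCC' h hst hl
    rw [← hdl]
    exact shpS hcc hl' hst
  · have hF : FL Λ = fun z => Λ (1 / 2 + z) * st Λ (1 / 2 + z) := by
      funext z
      unfold FL st
      rw [if_neg hs]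
      congr 3
      rw [map_add, map_div₀, map_one, map_ofNat]
    have hd : dF (dg l + μ.length) Λ = 2 * (dg l + μ.length) := by
      unfold dF
      rw [if_neg hs]
    rw [hF, hd]
    have hne : l ++ l ++ μ.map pr ≠ [] := by
      intro h0
      rcases hl with hl | hl
      · exact hl (List.append_eq_nil_iff.1 (List.append_eq_nil_iff.1 h0).1).1
      · exact hl (List.map_eq_nil_iff.1 (List.append_eq_nil_iff.1 h0).2)
    have hdg : dg (l ++ l ++ μ.map pr) = 2 * (dg l + μ.length) := by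
      rw [dg_append, dg_append, dg_pr]
      ring
    obtain ⟨r, hr, h1, ⟨C, hC, h3, h4⟩, h5⟩ := shpR h.doubleCC (conv_real b) hne
    rw [hdg] at h5
    refine ⟨r, hr, h1, ⟨C, hC, h3, (rh_double Λ).symm.trans h4⟩, ?_⟩
    intro θ κ hθ hz
    exact h5 θ κ hθ ((zero_double Λ θ).2 hz)

/-- `Λ` is a completed L-function of degree `m` of the general type with root number `w` of absolute
value one, and `Λ = G` in a half-plane. -/
def GoodN (m : ℕ) (w : ℂ) (Λ G : ℂ → ℂ) : Prop :=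
  ∃ (l : List Pc) (μ : List ℂ) (M : ℝ) (b : ℕ → ℂ), (l ≠ [] ∨ μ ≠ []) ∧ dg l + μ.length = m ∧ ‖w‖ = 1 ∧
    IsA l μ M b w Λ ∧ ∃ σ : ℝ, ∀ s : ℂ, σ ≤ s.re → Λ s = G s

theorem goodN_of {l : List Pc} {M : ℝ} {b : ℕ → ℂ} {w : ℂ} {Λ G : ℂ → ℂ} (hl : l ≠ [])
    (hw : ‖w‖ = 1) (h : IsC l M b w Λ)
    (e : ∃ σ : ℝ, ∀ s : ℂ, σ ≤ s.re → cexp (s * M) * GF l s * LSeries b s = G s) :
    GoodN (dg l) w Λ G := by
  obtain ⟨σ, hσ⟩ := e
  obtain ⟨σ0, hd⟩ := h.dir
  refine ⟨l, [], M, b, Or.inl hl, rfl, hw, ⟨h.one, h.bd, h.entire, h.fe, h.order, σ0, fun s hs => ?_⟩,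
    max σ σ0, fun s hs => ?_⟩
  · rw [hd s hs, GM_nil, mul_one]
  · rw [hd s ((le_max_right _ _).trans hs), hσ s ((le_max_left _ _).trans hs)]

theorem goodN_mk {Q : ℝ} (hQ : 0 < Q) {μ : List ℂ} (hμ : μ ≠ []) {b : ℕ → ℂ} {w : ℂ} {Λ : ℂ → ℂ}
    (h1 : b 1 = 1) (hb : ∃ B β : ℝ, ∀ m : ℕ, 1 ≤ m → ‖b m‖ ≤ B * (m : ℝ) ^ β) (hw : ‖w‖ = 1)
    (hd : Differentiable ℂ Λ) (ho : ∃ A ρ : ℝ, ∀ s : ℂ, ‖Λ s‖ ≤ Real.exp (A * (1 + ‖s‖) ^ ρ))
    (hf : ∀ s : ℂ, Λ (1 - s) = w * conj (Λ (conj s)))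
    (hL : ∃ σ : ℝ, ∀ s : ℂ, σ ≤ s.re →
      Λ s = (Q : ℂ) ^ (s / 2) * (μ.map fun m : ℂ => Gammaℝ (s + m)).prod * LSeries b s) :
    GoodN μ.length w Λ (fun s => (Q : ℂ) ^ (s / 2) * (μ.map fun m : ℂ => Gammaℝ (s + m)).prod *
      LSeries b s) := by
  obtain ⟨σ, hσ⟩ := hL
  refine ⟨[], μ, 1 / 2 * Real.log Q, b, Or.inr hμ, by simp [dg], hw,
    ⟨h1, hb, hd, hf, ho, σ, fun s hs => ?_⟩, σ, hσ⟩
  rw [hσ s hs, Pool.Agent.W355.LJ.exp_half_log hQ]
  congr 2
  unfold Pool.Agent.W355.LJ.GF GM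
  simp

theorem goodN_mul {m1 m2 : ℕ} {w1 w2 : ℂ} {Λ1 Λ2 G1 G2 : ℂ → ℂ} (h1 : GoodN m1 w1 Λ1 G1)
    (h2 : GoodN m2 w2 Λ2 G2) :
    GoodN (m1 + m2) (w1 * w2) (fun s => Λ1 s * Λ2 s) (fun s => G1 s * G2 s) := by
  obtain ⟨l1, μ1, M1, b1, n1, d1, u1, c1, σ1, e1⟩ := h1
  obtain ⟨l2, μ2, M2, b2, n2, d2, u2, c2, σ2, e2⟩ := h2
  refine ⟨l1 ++ l2, μ1 ++ μ2, M1 + M2, _, ?_, ?_, ?_, c1.mul c2, max σ1 σ2, fun s hs => ?_⟩
  · rcases n1 with n1 | n1
    · left
      simp [n1]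
    · right
      simp [n1]
  · rw [dg_append, List.length_append, ← d1, ← d2]
    ring
  · rw [norm_mul, u1, u2, mul_one]
  · simp only
    rw [e1 s ((le_max_left _ _).trans hs), e2 s ((le_max_right _ _).trans hs)]

theorem goodN_list {ι : Type} (G : ι → ℂ → ℂ) (dm : ι → ℕ)
    (h : ∀ i, ∃ (w : ℂ) (Λ : ℂ → ℂ), GoodN (dm i) w Λ (G i)) (l : List ι) (hl : l ≠ []) :
    ∃ (w : ℂ) (Λ : ℂ → ℂ), GoodN (l.map dm).sum w Λ (fun s => (l.map fun i => G i s).prod) := by
  induction l with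
  | nil => exact absurd rfl hl
  | cons i l ih =>
    rcases eq_or_ne l [] with rfl | hne
    · obtain ⟨w, Λ, hg⟩ := h i
      refine ⟨w, Λ, ?_⟩
      have e : (fun s => (([i] : List ι).map fun i => G i s).prod) = G i := by
        funext s
        simp
      rw [e]
      simpa using hg
    · obtain ⟨w1, Λ1, h1⟩ := h i
      obtain ⟨w2, Λ2, h2⟩ := ih hne
      refine ⟨w1 * w2, fun s => Λ1 s * Λ2 s, ?_⟩
      have e : (fun s => ((i :: l).map fun i => G i s).prod) =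
          fun s => G i s * (l.map fun i => G i s).prod := by
        funext s
        simp
      rw [e, List.map_cons, List.sum_cons]
      exact goodN_mul h1 h2

theorem goodN_final {m : ℕ} {w : ℂ} {Λ G : ℂ → ℂ} (h : GoodN m w Λ G) :
    Differentiable ℂ Λ ∧ (∃ σ : ℝ, ∀ s : ℂ, σ ≤ s.re → Λ s = G s) ∧ ‖w‖ = 1 ∧
    (∀ s : ℂ, Λ (1 - s) = w * conj (Λ (conj s))) ∧
    ∃ r : ℕ, r ≤ 1 ∧ (∀ z : ℂ, FL Λ (-z) = (-1) ^ r * FL Λ z) ∧ Shp (dF m Λ) r (FL Λ) Λ := by
  obtain ⟨l, μ, M, b, n, d, u, c, e⟩ := h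
  have h1 := shpA c n
  rw [d] at h1
  exact ⟨c.entire, e, u, c.fe, h1⟩

end Pool.Agent.U156.SJ
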