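import Pool.Agent.U156.SJ.Nw
import Pool.Agent.N831.LP.L
import Pool.Agent.Y771.NF.FinD

set_option autoImplicit false

/-!
# The package for newforms of trivial character, in the arithmetic normalisation
-/

namespace Pool.Agent.U156.SJ

open UpperHalfPlane hiding I
open MatrixGroups CongruenceSubgroup Filter Topology Complex
open Pool.Agent.W355.LJ (IsNF)
open Pool.Agent.Y771.NF (Lam Lam_ser)
open scoped ComplexConjugate

theorem coe_le' (N : ℕ) : (Gamma1 N : Subgroup (GL (Fin 2) ℝ)) ≤ (Gamma0 N : Subgroup (GL (Fin 2) ℝ)) := by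
  rintro _ ⟨γ, hγ, rfl⟩
  exact ⟨γ, Gamma1_in_Gamma0 N hγ, rfl⟩

/-- restriction to `Γ₁(N)` -/
noncomputable def toG1 {N k : ℕ} (f : CuspForm (Gamma0 N : Subgroup (GL (Fin 2) ℝ)) (k : ℤ)) :
    CuspForm (Gamma1 N : Subgroup (GL (Fin 2) ℝ)) (k : ℤ) where
  toFun := f
  slash_action_eq' g hg := f.slash_action_eq' g (coe_le' N hg)
  holo' := f.holo'
  zero_at_cusps' hc := f.zero_at_cusps' (hc.mono (coe_le' N))

variable {N : ℕ} [NeZero N] {k : ℕ} {f : CuspForm (Gamma0 N : Subgroup (GL (Fin 2) ℝ)) (k : ℤ)} {ε : ℝ}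

omit [NeZero N] in
theorem toG1_apply (τ : ℍ) : toG1 f τ = f τ := rfl

omit [NeZero N] in
theorem toG1_coeff (n : ℕ) : (qExpansion 1 (toG1 f)).coeff n = (qExpansion 1 f).coeff n := rfl

/-- real coefficients -/
theorem f_conj (hf : W388.IsNewf N k f ε) {τ τ' : ℍ} (h : (τ' : ℂ) = -conj (τ : ℂ)) :
    f τ' = conj (f τ) := by
  have h1 := Pool.Agent.W97.TW.hasSum_f f τ.im_pos
  have h2 := Pool.Agent.W97.TW.hasSum_f f τ'.im_pos
  rw [ofComplex_apply] at h1 h2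
  have h3 := (Complex.hasSum_conj' (f := _) (x := _)).2 h1
  refine h2.unique (h3.congr_fun fun n => ?_)
  rw [map_mul]
  congr 1
  · exact (Complex.conj_eq_iff_im.2 (hf.real n)).symm
  · rw [← Complex.exp_conj, h]
    congr 1
    simp only [map_mul, map_ofNat, Complex.conj_ofReal, Complex.conj_I, map_natCast]
    ring

theorem isNF_real (hf : W388.IsNewf N k f ε) : IsNF N k (toG1 f) ((ε : ℂ) * (Complex.I⁻¹) ^ k) := by
  refine ⟨hf.one, ?_, fun τ τ' τ'' h1 h2 => ?_⟩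
  · rw [norm_mul, norm_pow, norm_inv, Complex.norm_I]
    rcases hf.sign with h | h <;> rw [h] <;> simp
  · rw [toG1_apply, toG1_apply, hf.fricke τ τ' h1, f_conj hf h2, Complex.conj_conj, div_eq_mul_inv, mul_zpow,
      zpow_natCast, zpow_natCast]
    ring

/-- **Newforms of trivial character.** -/
theorem cp_newr (hk : 1 ≤ k) (hf : W388.IsNewf N k f ε) :
    Cp 2 ((k : ℝ) / 2 + 1) ((k : ℂ) / 2) (Lam f) := by
  obtain ⟨v, hv, hP⟩ := Pool.Agent.N831.LP.p2_mellin hk hf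
  obtain ⟨w', Λ₀, hg⟩ := goodN_nf hk (isNF_real hf)
  have hpi := Real.pi_pos
  have hN0 : (0 : ℝ) < N := by exact_mod_cast Nat.pos_of_ne_zero (NeZero.ne N)
  have hsq : 0 < Real.sqrt N := Real.sqrt_pos.2 hN0
  obtain ⟨c, hc⟩ : ∃ c : ℝ, c = Real.sqrt N / (2 * Real.pi) := ⟨_, rfl⟩
  have hcp : 0 < c := by rw [hc]; positivity
  have hcc : (c : ℂ) ≠ 0 := by exact_mod_cast hcp.ne'
  have hcpow : ∀ s : ℂ, (c : ℂ) ^ (s - (k : ℂ) / 2 + 1 / 2) = ((c ^ (-(((k : ℝ) - 1) / 2)) : ℝ) : ℂ) * (c : ℂ) ^ s := by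
    intro s
    rw [Complex.ofReal_cpow hcp.le, ← Complex.cpow_add _ _ hcc]
    congr 1
    push_cast
    ring
  refine cp_of (X := fun z => v * Lam f ((k : ℂ) / 2 + z)) (v := v)
    (K := 2 * (2 * Real.pi) ^ (-(((k : ℝ) - 1) / 2)) * c ^ (-(((k : ℝ) - 1) / 2)))
    hP.pl.diff hP.pl.strip hv (fun s _ => ?_) hg (by positivity) ⟨(k : ℝ) / 2 + 1, fun s hs => ?_⟩
  · rw [add_sub_cancel]
  · rw [arch, ← hc, hcpow, Lam_ser hk hf s hs, ← hc]
    have e1 : s - (k : ℂ) / 2 + 1 / 2 + ((((k : ℝ) - 1) / 2 : ℝ) : ℂ) = s := by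
      push_cast
      ring
    have e2 : LSeries (bn (toG1 f)) (s - (k : ℂ) / 2 + 1 / 2) =
        ∑' n : ℕ, (qExpansion 1 f).coeff (n + 1) * ((n + 1 : ℕ) : ℂ) ^ (-s) := by
      unfold LSeries
      rw [← (add_left_injective 1).tsum_eq (f := fun n => LSeries.term (bn (toG1 f)) (s - (k : ℂ) / 2 + 1 / 2) n)]
      · refine tsum_congr fun n => ?_
        have hn0 : (0 : ℝ) < ((n + 1 : ℕ) : ℝ) := by positivity
        have hnc : ((n + 1 : ℕ) : ℂ) ≠ 0 := by exact_mod_cast hn0.ne'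
        rw [LSeries.term_of_ne_zero (by omega)]
        unfold bn
        rw [toG1_coeff, Complex.ofReal_cpow hn0.le, Complex.ofReal_natCast, mul_div_assoc,
          ← Complex.cpow_sub _ _ hnc]
        congr 2
        push_cast
        ring
      · intro n hn
        rcases Nat.eq_zero_or_pos n with rfl | h
        · exact absurd (LSeries.term_zero _ _) hn
        · exact ⟨n - 1, by simp only; omega⟩
    rw [e1, e2]
    push_cast
    ring

open Pool.Agent.Y771.NF (Lam_diff Lam_conj Lam_fe)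
open Pool.Agent.W355.GJ.Crit (LogCriterion)

/-- **Newforms of trivial character: the final form.**  `r = 0` if `ε = 1` and `r = 1` if `ε = -1`. -/
theorem newr_final (hk : 1 ≤ k) (hf : W388.IsNewf N k f ε) :
    (∀ s : ℂ, Lam f s = 0 → |s.re - (k : ℝ) / 2| ≤ 1 / 2) ∧
    ∃ r : ℕ, r ≤ 1 ∧ (ε = 1 → r = 0) ∧
      (∀ t κ : ℝ, 0 ≤ t → (∀ s : ℂ, Lam f s = 0 → s.re ≤ (k : ℝ) / 2 + t) → 0 < κ → t / 2 < κ →
          Range r (fun z => Lam f ((k : ℂ) / 2 + z)) κ) ∧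
      LogCriterion r (fun z => Lam f ((k : ℂ) / 2 + z)) (∀ s : ℂ, Lam f s = 0 → s.re = (k : ℝ) / 2) := by
  have hcim : ((k : ℂ) / 2).im = 0 := by
    rw [show ((k : ℂ) / 2) = (((k : ℝ) / 2 : ℝ) : ℂ) by push_cast; ring, Complex.ofReal_im]
  have hcre : ((k : ℂ) / 2).re = (k : ℝ) / 2 := by
    rw [show ((k : ℂ) / 2) = (((k : ℝ) / 2 : ℝ) : ℂ) by push_cast; ring, Complex.ofReal_re]
  obtain ⟨Λ, k1, k2, k3, k4, r, hr, k5, k6, k7⟩ := cp_final hcim (cp_newr hk hf)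
  have e : Lam f = Λ := Pool.Agent.R838.TW.uniq k1 (Lam_diff hk hf) ⟨_, k2⟩ ⟨(k : ℝ) / 2 + 1, fun s _ => rfl⟩
  rw [hcre] at k4 k6 k7
  rw [← e] at k4 k5 k6 k7
  have hreal : ∀ s : ℂ, Lam f (conj s) = conj (Lam f s) := Lam_conj hf
  have hF : FC ((k : ℂ) / 2) (Lam f) = fun z => Lam f ((k : ℂ) / 2 + z) := by
    funext z
    unfold FC
    rw [if_pos hreal]
  have hd : dF 2 (Lam f) = 2 := by
    unfold dF
    rw [if_pos hreal]
  rw [hF] at k5 k6 k7
  refine ⟨k4, r, hr, fun hε => ?_, fun t κ ht hz hκ0 hκ => k6 t κ ht hz hκ0 ?_, k7⟩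
  · rcases Nat.le_one_iff_eq_zero_or_eq_one.1 hr with h | h
    · exact h
    · exfalso
      have h1 := k5 1
      simp only at h1
      have h2 := Lam_fe hk hf ((k : ℂ) / 2 + 1)
      rw [show (k : ℂ) - ((k : ℂ) / 2 + 1) = (k : ℂ) / 2 + -1 by ring, h1, hε, h] at h2
      have h3 : Lam f ((k : ℂ) / 2 + 1) = 0 := by
        push_cast at h2
        linear_combination (-(1 / 2 : ℂ)) * h2
      have h4 := k4 _ h3
      rw [Complex.add_re, hcre, Complex.one_re] at h4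
      norm_num at h4
  · rw [hd]
    push_cast
    linarith

end Pool.Agent.U156.SJ
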