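import Pool.Agent.U156.SJ.Cp
import Pool.Agent.U156.LB.I3
import Pool.Agent.W355.UN.Tw
import Pool.Agent.W355.UN.Ab2

set_option autoImplicit false

/-!
# The packages for newforms and for twists of elliptic curves
-/

namespace Pool.Agent.U156.SJ

open UpperHalfPlane hiding I
open MatrixGroups CongruenceSubgroup Filter Topology Complex
open Pool.Agent.W355.LJ (Pc GF dg IsC IsNF nf_isC exp_half_log GF_pair)
open Pool.Agent.W355.LC
open Pool.Agent.U156.LB (P3 p3_twc p3_newf p3_fac)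
open Pool.Agent.W169.HF (IsForm coef)
open Pool.Agent.W355.UN (facE prodE coprime_cond isNewf_of eu2_of fac_eq tw_raw lam2 Eu2 cser)
open Pool.Agent.R838.NB (euler_twc lxc lmc one_val)
open Pool.Agent.Y671.GL (IsL)
open scoped ComplexConjugate

section nb

variable {N : ℕ} [NeZero N] {k : ℕ} {ψ : DirichletCharacter ℂ N}
  {f : CuspForm (Gamma1 N : Subgroup (GL (Fin 2) ℝ)) (k : ℤ)} {η : ℂ}

omit [NeZero N] in
theorem isNF_of (hf : W388.IsNewfC N k ψ f η) : IsNF N k f (η * (Complex.I⁻¹) ^ k) := by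
  refine ⟨hf.one, ?_, fun τ τ' τ'' h1 h2 => ?_⟩
  · rw [norm_mul, hf.sign, norm_pow, norm_inv, Complex.norm_I]
    simp
  · rw [hf.fricke τ τ' τ'' h1 h2, div_eq_mul_inv, mul_zpow, zpow_natCast, zpow_natCast]
    ring

/-- the coefficients -/
noncomputable def bn (f : CuspForm (Gamma1 N : Subgroup (GL (Fin 2) ℝ)) (k : ℤ)) (n : ℕ) : ℂ :=
  (qExpansion 1 f).coeff n * ((((n : ℝ) ^ (-(((k : ℝ) - 1) / 2)) : ℝ)) : ℂ)

theorem goodN_nf (hk : 1 ≤ k) {w : ℂ} (hf : IsNF N k f w) :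
    ∃ (w' : ℂ) (Λ : ℂ → ℂ), GoodN 2 w' Λ
      (fun s => (N : ℂ) ^ (s / 2) * Gammaℂ (s + ((((k : ℝ) - 1) / 2 : ℝ) : ℂ)) * LSeries (bn f) s) := by
  obtain ⟨w', Λ, hw, h⟩ := nf_isC f hk hf
  have e2 : ((k : ℝ) + 1) / 2 = ((k : ℝ) - 1) / 2 + 1 := by ring
  rw [e2] at h
  refine ⟨w', Λ, goodN_of (l := [Pc.one (((k : ℝ) - 1) / 2), Pc.one (((k : ℝ) - 1) / 2 + 1)]) (by simp) hw h
    ⟨0, fun s _ => ?_⟩⟩
  have hN0 : (0 : ℝ) < N := by exact_mod_cast Nat.pos_of_ne_zero (NeZero.ne N)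
  rw [exp_half_log hN0, Complex.ofReal_natCast, GF_pair]
  rfl

/-- the archimedean factors -/
theorem arch (N : ℕ) [NeZero N] (a : ℝ) (s : ℂ) : (N : ℂ) ^ (s / 2) * Gammaℂ (s + (a : ℂ)) =
    ((2 * (2 * Real.pi) ^ (-a) : ℝ) : ℂ) *
      (((Real.sqrt N / (2 * Real.pi) : ℝ) : ℂ) ^ s * Complex.Gamma (s + (a : ℂ))) := by
  have hN0 : (0 : ℝ) < N := by exact_mod_cast Nat.pos_of_ne_zero (NeZero.ne N)
  have hsN : 0 < Real.sqrt N := Real.sqrt_pos.2 hN0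
  have h2pi : (0 : ℝ) < 2 * Real.pi := by positivity
  have h2c : ((2 * Real.pi : ℝ) : ℂ) ≠ 0 := by exact_mod_cast h2pi.ne'
  have e1 : (N : ℂ) ^ (s / 2) = ((Real.sqrt N : ℝ) : ℂ) ^ s := by
    have h1 : ((N : ℝ) : ℂ) = (((Real.sqrt N) ^ (2 : ℝ) : ℝ) : ℂ) := by
      rw [Real.rpow_two, Real.sq_sqrt hN0.le]
    rw [← Complex.ofReal_natCast, h1, ← Complex.cpow_mul_ofReal_nonneg hsN.le 2 (s / 2)]
    congr 1
    push_cast
    ring
  have e2 : ((Real.sqrt N / (2 * Real.pi) : ℝ) : ℂ) ^ s =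
      ((Real.sqrt N : ℝ) : ℂ) ^ s * ((2 * Real.pi : ℝ) : ℂ) ^ (-s) := by
    rw [Complex.ofReal_div, Complex.div_cpow_ofReal_nonneg hsN.le h2pi.le, Complex.cpow_neg,
      div_eq_mul_inv]
  have e3 : (2 * (Real.pi : ℂ)) ^ (-(s + (a : ℂ))) =
      ((2 * Real.pi : ℝ) : ℂ) ^ (-s) * (((2 * Real.pi) ^ (-a) : ℝ) : ℂ) := by
    rw [Complex.ofReal_cpow h2pi.le, ← Complex.cpow_add _ _ h2c]
    congr 1
    · push_cast
      rfl
    · push_cast
      ring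
  rw [Complex.Gammaℂ_def, e1, e2, e3]
  push_cast
  ring

omit [NeZero N] in
theorem ls_eq {F : ℂ → ℂ} (hL : IsL (lmc f) F) {s : ℂ} (hs : 1 < s.re) : LSeries (bn f) s = F s := by
  rw [hL.ser s hs]
  unfold LSeries
  refine tsum_congr fun n => ?_
  rcases Nat.eq_zero_or_pos n with rfl | hn
  · rw [LSeries.term_zero, Nat.cast_zero, Complex.zero_cpow, mul_zero]
    intro h
    have h1 := congrArg Complex.re h
    rw [Complex.neg_re, Complex.zero_re] at h1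
    linarith
  · have hn0 : (0 : ℝ) < n := by exact_mod_cast hn
    rw [LSeries.term_of_ne_zero (by omega)]
    unfold bn lmc W388.lamC
    rw [Complex.cpow_neg, Real.rpow_neg hn0.le, Complex.ofReal_inv]
    have e : ((((k : ℕ) : ℤ) : ℝ) - 1) / 2 = ((k : ℝ) - 1) / 2 := by push_cast; rfl
    rw [e]
    simp only [div_eq_mul_inv]

/-- the form with the L-function as an entire function -/
theorem base_newf (hk : 1 ≤ k) (hf : W388.IsNewfC N k ψ f η) {F : ℂ → ℂ} (hL : IsL (lmc f) F) :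
    ∃ (w' : ℂ) (Λ G₀ : ℂ → ℂ) (K : ℝ), GoodN 2 w' Λ G₀ ∧ 0 < K ∧ ∀ s : ℂ, 1 < s.re →
      G₀ s = (K : ℂ) * (((Real.sqrt N / (2 * Real.pi) : ℝ) : ℂ) ^ s *
        Complex.Gamma (s + ((k : ℂ) - 1) / 2) * F s) := by
  obtain ⟨w', Λ, h⟩ := goodN_nf hk (isNF_of hf)
  have hpi := Real.pi_pos
  refine ⟨w', Λ, _, 2 * (2 * Real.pi) ^ (-(((k : ℝ) - 1) / 2)), h, by positivity, fun s hs => ?_⟩
  have e : ((((k : ℝ) - 1) / 2 : ℝ) : ℂ) = ((k : ℂ) - 1) / 2 := by push_cast; rfl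
  rw [arch, ls_eq hL hs, e]
  ring

/-- **Newforms**, in the normalisation of automorphic representations. -/
theorem cp_newf (hk : 1 ≤ k) (hf : W388.IsNewfC N k ψ f η) :
    Cp 2 1 (1 / 2) (fun s => ((Real.sqrt N / (2 * Real.pi) : ℝ) : ℂ) ^ s *
      Complex.Gamma (s + ((k : ℂ) - 1) / 2) * ∑' n : ℕ, W388.lamC f n * (n : ℂ) ^ (-s)) := by
  obtain ⟨X, F, v, hP, hv, hL, hX⟩ := p3_newf hk hf
  obtain ⟨w', Λ, G₀, K, h1, h2, h3⟩ := base_newf hk hf hL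
  refine cp_of (X := X) (v := v) hP.1.pl.diff hP.1.pl.strip hv (fun s hs => ?_) h1 h2 ⟨1, fun s hs => ?_⟩
  · rw [hX s hs, hL.ser s hs]
    unfold W388.GG
    rw [mul_one, Int.cast_natCast]
    rfl
  · rw [sub_add_cancel, h3 s hs, hL.ser s hs]
    rfl

/-- **Newforms**, in the normalisation of the cohomology of degree `i = k - 1 + 2 r`. -/
theorem cp_new (hk : 1 ≤ k) (hf : W388.IsNewfC N k ψ f η) {i r : ℕ} (hi : k + 2 * r = i + 1) :
    ∃ F₁ : ℂ → ℂ, (∀ s : ℂ, (i : ℝ) / 2 + 1 < s.re →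
      HasProd (fun p : Nat.Primes =>
        (1 - (qExpansion 1 f).coeff p * ((p : ℕ) : ℂ) ^ ((r : ℂ) - s) +
          ψ ((p : ℕ) : ZMod N) * ((p : ℕ) : ℂ) ^ ((i : ℂ) - 2 * s))⁻¹) (F₁ s)) ∧
      Cp 2 ((i : ℝ) / 2 + 1) (((i : ℂ) + 1) / 2)
        (fun s => ((Real.sqrt N / (2 * Real.pi) : ℝ) : ℂ) ^ s * Complex.Gamma (s - r) * F₁ s) := by
  have hpi := Real.pi_pos
  obtain ⟨X, F, v, hP, hv, hL, hX⟩ := p3_twc (q := 1) (χ := 1) hk hf
    DirichletCharacter.isPrimitive_one_level_one (Nat.coprime_one_left N)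
  have hL' : IsL (lmc f) F := ⟨hL.diff, fun s hs => by
    rw [hL.ser s hs]
    refine tsum_congr fun n => ?_
    unfold lxc
    rw [one_val, one_mul]⟩
  obtain ⟨w', Λ, G₀, K, g1, g2, g3⟩ := base_newf hk hf hL'
  have hN0 : (0 : ℝ) < N := by exact_mod_cast Nat.pos_of_ne_zero (NeZero.ne N)
  have hsq : 0 < Real.sqrt N := Real.sqrt_pos.2 hN0
  obtain ⟨c, hc⟩ : ∃ c : ℝ, c = Real.sqrt N / (2 * Real.pi) := ⟨_, rfl⟩
  have hcp : 0 < c := by rw [hc]; positivity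
  have hcc : (c : ℂ) ≠ 0 := by exact_mod_cast hcp.ne'
  have hir : (k : ℂ) + 2 * r = i + 1 := by exact_mod_cast hi
  have hik : (k : ℂ) = i + 1 - 2 * r := by linear_combination hir
  have hre : ∀ s : ℂ, (i : ℝ) / 2 + 1 < s.re → 1 < (s - (i : ℂ) / 2).re := by
    intro s hs
    have e : (s - (i : ℂ) / 2).re = s.re - (i : ℝ) / 2 := by
      rw [Complex.sub_re]
      congr 1
      rw [show ((i : ℂ) / 2) = (((i : ℝ) / 2 : ℝ) : ℂ) by push_cast; ring, Complex.ofReal_re]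
    rw [e]
    linarith
  have hcpow : ∀ s : ℂ, (c : ℂ) ^ (s - (i : ℂ) / 2) = ((c ^ (-((i : ℝ) / 2)) : ℝ) : ℂ) * (c : ℂ) ^ s := by
    intro s
    rw [Complex.ofReal_cpow hcp.le, ← Complex.cpow_add _ _ hcc]
    congr 1
    push_cast
    ring
  have harg : ∀ s : ℂ, s - (i : ℂ) / 2 + ((k : ℂ) - 1) / 2 = s - r := by
    intro s
    rw [hik]
    ring
  refine ⟨fun s => F (s - (i : ℂ) / 2), fun s hs => ?_, ?_⟩
  · have hs' := hre s hs
    have h1 := euler_twc hk hf hL hs'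
    convert h1 using 2 with p
    have hp := p.2
    have hp0 : (0 : ℝ) < (p : ℕ) := by exact_mod_cast hp.pos
    have hpc : (((p : ℕ)) : ℂ) ≠ 0 := by exact_mod_cast hp.ne_zero
    have e1 : W388.lamC f p * ((p : ℕ) : ℂ) ^ (-(s - (i : ℂ) / 2)) =
        (qExpansion 1 f).coeff (p : ℕ) * ((p : ℕ) : ℂ) ^ ((r : ℂ) - s) := by
      unfold W388.lamC
      rw [Complex.ofReal_cpow hp0.le, Complex.ofReal_natCast]
      have e2 : ((((((k : ℕ) : ℤ) : ℝ) - 1) / 2 : ℝ) : ℂ) = ((k : ℂ) - 1) / 2 := by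
        push_cast
        ring
      rw [e2, div_mul_eq_mul_div, mul_div_assoc, ← Complex.cpow_sub _ _ hpc]
      congr 2
      rw [hik]
      ring
    have e3 : ((p : ℕ) : ℂ) ^ ((i : ℂ) - 2 * s) = ((p : ℕ) : ℂ) ^ (-2 * (s - (i : ℂ) / 2)) := by
      congr 1
      ring
    rw [e3, one_val, one_pow, one_mul, one_mul, e1]
  · refine cp_of (X := X) (v := v * ((c ^ (-((i : ℝ) / 2)) : ℝ) : ℂ)) (K := K * c ^ (-((i : ℝ) / 2)))
      hP.1.pl.diff hP.1.pl.strip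
      (mul_ne_zero hv (by exact_mod_cast (Real.rpow_pos_of_pos hcp _).ne')) (fun s hs => ?_) g1
      (mul_pos g2 (Real.rpow_pos_of_pos hcp _)) ⟨(i : ℝ) / 2 + 1, fun s hs => ?_⟩
    · have h1 := hX (s - (i : ℂ) / 2) (hre s hs)
      rw [show s - (i : ℂ) / 2 - 1 / 2 = s - ((i : ℂ) + 1) / 2 by ring] at h1
      rw [h1]
      unfold W388.GG
      rw [Nat.cast_one, mul_one, ← hc, Int.cast_natCast, harg, hcpow]
      ring
    · rw [show s - ((i : ℂ) + 1) / 2 + 1 / 2 = s - (i : ℂ) / 2 by ring, g3 _ (hre s hs), ← hc, harg, hcpow]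
      push_cast
      ring

end nb

section ec

variable {N : ℕ} [NeZero N] {f : CuspForm (Gamma0 N : Subgroup (GL (Fin 2) ℝ)) 2} {w : ℝ}
variable {q : ℕ} [NeZero q] {χ : DirichletCharacter ℂ q}

/-- **Twists of elliptic curves.** -/
theorem cp_fac (hf : IsForm N f w) (hχ : χ.IsPrimitive) (hco : Nat.Coprime q N) :
    Cp 2 (3 / 2) 1 (fun s => facE f χ s) := by
  obtain ⟨X, v, hP, hv, hX⟩ := p3_fac hf hχ hco
  have hE := eu2_of hf
  obtain ⟨c, Y, hY⟩ := tw_raw f hE (isNewf_of hf) χ hχ hco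
  have hN0 : (0 : ℝ) < N := by exact_mod_cast Nat.pos_of_ne_zero (NeZero.ne N)
  have hq0 : (0 : ℝ) < q := by exact_mod_cast Nat.pos_of_ne_zero (NeZero.ne q)
  have hsq : 0 < Real.sqrt N := Real.sqrt_pos.2 hN0
  have hR : 0 < Real.sqrt N * q := by positivity
  obtain ⟨ε, hε, hfe⟩ := hY.fe
  obtain ⟨σ, hσ⟩ := hY.eq
  have hQ : (0 : ℝ) < (N : ℝ) * (q : ℝ) ^ 2 := by positivity
  have hprod : ∀ s : ℂ, ∏ j : Fin ([(((1 / 2 : ℝ)) : ℂ), (((3 / 2 : ℝ)) : ℂ)] : List ℂ).length,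
      Gammaℝ (s + ([(((1 / 2 : ℝ)) : ℂ), (((3 / 2 : ℝ)) : ℂ)] : List ℂ).get j) =
      (([(((1 / 2 : ℝ)) : ℂ), (((3 / 2 : ℝ)) : ℂ)] : List ℂ).map fun m : ℂ => Gammaℝ (s + m)).prod := fun s =>
    Pool.Agent.W355.UN.prod_get _ (fun a : ℂ => Gammaℝ (s + a))
  have hg := goodN_mk (Q := (N : ℝ) * (q : ℝ) ^ 2) hQ
    (μ := [(((1 / 2 : ℝ)) : ℂ), (((3 / 2 : ℝ)) : ℂ)]) (by simp)
    (b := fun n => χ (n : ZMod q) * lam2 f n) (w := ε) (Λ := Y) hY.one ?_ hε hY.entire hY.order ?_ ⟨σ, fun s hs => ?_⟩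
  · refine cp_of (X := X) (v := v) (K := 2 * (Real.sqrt N * q) ^ (-(1 / 2) : ℝ)) hP.1.pl.diff hP.1.pl.strip hv
      hX hg (by positivity) ⟨3 / 2, fun s hs => ?_⟩
    have h1 := fac_eq hE (Nat.pos_of_ne_zero (NeZero.ne q)) χ (s := s - 1 / 2) (by simp; linarith)
    unfold cser at h1
    rw [pow_zero, one_mul, sub_add_cancel] at h1
    rw [show s - 1 + 1 / 2 = s - 1 / 2 by ring, h1]
    have e5 : ((2 * (Real.sqrt N * q) ^ (-(1 / 2) : ℝ) : ℝ) : ℂ) =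
        2 * ((Real.sqrt N * q : ℝ) : ℂ) ^ (-(1 / 2) : ℂ) := by
      rw [Complex.ofReal_mul 2, Complex.ofReal_cpow hR.le]
      push_cast
      rfl
    rw [e5]
  · refine ⟨1, 1, fun m hm => ?_⟩
    have h1 := (hE.twist χ).le (n := m) (by omega)
    have h2 : ((m.divisors.card : ℕ) : ℝ) ≤ m := by exact_mod_cast Nat.card_divisors_le_self m
    rw [one_mul, Real.rpow_one]
    exact h1.trans h2
  · intro s
    have h1 := hfe (1 - s)
    rw [h1, map_sub, map_one, sub_sub_cancel]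
  · rw [hσ s hs, pow_zero, one_mul, hprod]

end ec

section ab

variable {M : ℕ} [NeZero M] (G : Subgroup (DirichletCharacter ℂ M)) [Fintype G]
variable {N : ℕ} [NeZero N] {f : CuspForm (Gamma0 N : Subgroup (GL (Fin 2) ℝ)) 2} {w : ℝ}

/-- **Elliptic curves over abelian number fields.** -/
theorem cp_ab (hf : IsForm N f w) (hco : Nat.Coprime M N) :
    Cp (2 * Fintype.card G) (3 / 2) 1 (fun s => prodE G f s) := by
  have h := cp_prod (ι := G) (σ := 3 / 2) (c := 1)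
    (fun χ s => facE f (χ : DirichletCharacter ℂ M).primitiveCharacter s) (fun _ => 2) (fun χ => by
      have : NeZero (χ : DirichletCharacter ℂ M).conductor := ⟨DirichletCharacter.conductor_ne_zero _⟩
      exact cp_fac hf (DirichletCharacter.primitiveCharacter_isPrimitive _) (coprime_cond hco _))
  rw [Finset.sum_const, Finset.card_univ, smul_eq_mul, mul_comm] at h
  exact h

end ab

end Pool.Agent.U156.SJ
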