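import Pool.Agent.W355.GJ.All

set_option autoImplicit false

/-!
# Local size of the factor at infinity and of the completed function

`D` is a completed self-dual L-function of the class `Pool.Agent.W355.GJ.IsL`, with the slope
`sl D t = κ c log t` of its factor at infinity at height `t`.
-/

namespace Pool.Agent.U156.SJ

open Complex Filter Topology
open Pool.Agent.H471R3.GJ hiding IsL SStir
open Pool.Agent.W355.GJ (IsL SStir)

/-- the same function with another window -/
def up (D : Dat) (W : ℝ) : Dat := { D with w := W }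

theorem isL_up {D : Dat} (h : IsL D) {W : ℝ} (hW : D.w ≤ W) : IsL (up D W) where
  κ_pos := h.κ_pos
  c_pos := h.c_pos
  A_nonneg := h.A_nonneg
  A0_one := h.A0_one
  w_large := h.w_large.trans hW
  w_large2 := h.w_large2.trans (by
    show (2 : ℝ) ^ (D.w / 2) ≤ (2 : ℝ) ^ (W / 2)
    exact Real.rpow_le_rpow_of_exponent_le (by norm_num) (by linarith))
  Φ_cont := h.Φ_cont
  Φ_even := h.Φ_even
  Φ_pos := h.Φ_pos
  Φ_dec := h.Φ_dec
  XX_eq := h.XX_eq
  XX_zero := h.XX_zero
  HH_diff := h.HH_diff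
  HH_log := h.HH_log
  a_one := h.a_one
  a_le := h.a_le
  XX_dir := h.XX_dir

/-- the slope at height `t` -/
noncomputable def sl (D : Dat) (t : ℝ) : ℝ := D.κ * Om D t

theorem sl_eq (D : Dat) (t : ℝ) : sl D t = D.κ * D.c * Real.log t := by
  unfold sl Om; ring

theorem kc_pos {D : Dat} (h : IsL D) : 0 < D.κ * D.c := mul_pos h.κ_pos h.c_pos

/-- a window so large that the radius is at least `R` -/
theorem exW {D : Dat} (h : IsL D) (R : ℝ) : ∃ W : ℝ, D.w ≤ W ∧ R ≤ rr (up D W) := by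
  have hk := h.κ_pos
  refine ⟨max D.w (D.κ * R), le_max_left _ _, ?_⟩
  show R ≤ 2 * (max D.w (D.κ * R)) / D.κ
  rw [le_div_iff₀ hk]
  have h1 := le_max_right D.w (D.κ * R)
  have h2 := le_max_left D.w (D.κ * R)
  have h3 : 0 < D.w := by
    have := h.w_large
    have := h.A_nonneg
    nlinarith
  linarith

/-- the factor at infinity -/
theorem hh {D : Dat} (h : IsL D) (R : ℝ) (hR : 1 ≤ R) : ∃ K T0 : ℝ, 1 ≤ K ∧ 2 ≤ T0 ∧
    ∀ (t : ℝ) (u : ℂ), T0 ≤ t → ‖u‖ ≤ R → DifferentiableAt ℂ D.HH (I * t + u) ∧ D.HH (I * t + u) ≠ 0 ∧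
      ‖logDeriv D.HH (I * t + u) - (sl D t : ℂ)‖ ≤ K ∧
      Real.exp (sl D t * u.re - K) * ‖D.HH (I * t)‖ ≤ ‖D.HH (I * t + u)‖ ∧
      ‖D.HH (I * t + u)‖ ≤ Real.exp (sl D t * u.re + K) * ‖D.HH (I * t)‖ := by
  have hkc := kc_pos h
  obtain ⟨T1, hT1, hd⟩ := h.HH_diff
  obtain ⟨K2, T2, hK2, hT2, hlog⟩ := h.HH_log
  obtain ⟨W, hW, hRW⟩ := exW h R
  obtain ⟨-, K3, T3, hK3, hT3, hst⟩ := Pool.Agent.W355.GJ.T.stirT (up D W) (isL_up h hW)
  obtain ⟨K, hK⟩ : ∃ K : ℝ, K = K2 + D.κ * D.c + K3 * R + 1 := ⟨_, rfl⟩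
  have hK3R : 0 ≤ K3 * R := by positivity
  refine ⟨K, T1 + T2 + T3 + 3 * R + 2 * K3 + 2, by rw [hK]; linarith, by linarith, ?_⟩
  intro t u ht hu
  have hu1 := abs_le.1 ((abs_re_le_norm u).trans hu)
  have hu2 := abs_le.1 ((abs_im_le_norm u).trans hu)
  have him : (I * (t : ℂ) + u).im = t + u.im := by simp
  have hre : (I * (t : ℂ) + u).re = u.re := by simp
  have ht0 : 0 < t := by linarith
  obtain ⟨h0, hb, hs⟩ := hst t (by linarith)
  have hs1 := hs u (by linarith)
  have hX : (up D W).HH = D.HH := rfl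
  rw [hX] at h0 hs1
  have hbe : be (up D W) t = be D t := rfl
  have hOm : Om (up D W) t = Om D t := rfl
  have hκ : (up D W).κ = D.κ := rfl
  rw [hbe, hOm, hκ] at hb
  rw [hbe] at hs1
  have hlg := hlog (I * t + u) (by rw [him]; linarith) (by rw [him, hre, abs_le]; constructor <;> linarith)
  obtain ⟨hne, hl⟩ := hlg
  refine ⟨hd _ (by rw [him]; linarith), hne, ?_, ?_⟩
  · rw [him] at hl
    have e : logDeriv D.HH (I * t + u) - (sl D t : ℂ) =
        (logDeriv D.HH (I * t + u) - ((D.κ * (D.c * Real.log (t + u.im)) : ℝ) : ℂ)) +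
        ((D.κ * D.c * (Real.log (t + u.im) - Real.log t) : ℝ) : ℂ) := by
      rw [sl_eq]; push_cast; ring
    rw [e]
    refine (norm_add_le _ _).trans ?_
    rw [norm_real, Real.norm_eq_abs, abs_mul, abs_of_pos hkc]
    have h3 : |Real.log (t + u.im) - Real.log t| ≤ 1 := by
      have hp : 0 < t + u.im := by linarith
      rw [abs_le]
      constructor
      · have : Real.log t ≤ Real.log (t + u.im) + 1 := by
          rw [← Real.log_exp 1, ← Real.log_mul hp.ne' (Real.exp_pos _).ne']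
          apply Real.log_le_log ht0
          have := Real.add_one_le_exp (1 : ℝ)
          nlinarith
        linarith
      · have : Real.log (t + u.im) ≤ Real.log t + 1 := by
          rw [← Real.log_exp 1, ← Real.log_mul ht0.ne' (Real.exp_pos _).ne']
          apply Real.log_le_log hp
          have := Real.add_one_le_exp (1 : ℝ)
          nlinarith
        linarith
    have h4 : D.κ * D.c * |Real.log (t + u.im) - Real.log t| ≤ D.κ * D.c * 1 := by gcongr
    rw [hK]
    linarith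
  · -- the size
    have hE : ‖D.HH (I * t) * cexp (be D t * u)‖ =
        ‖D.HH (I * t)‖ * Real.exp (be D t * u).re := by
      rw [norm_mul, Complex.norm_exp]
    have h5 : |(be D t * u).re - sl D t * u.re| ≤ K3 * R := by
      have e : (be D t * u).re - sl D t * u.re = ((be D t - (sl D t : ℂ)) * u).re := by
        rw [sub_mul, sub_re]
        simp
      rw [e]
      refine (abs_re_le_norm _).trans ?_
      rw [norm_mul]
      exact mul_le_mul hb hu (norm_nonneg _) (by linarith)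
    have h6 := abs_le.1 h5
    have hKt : K3 / t ≤ 1 / 2 := by
      rw [div_le_iff₀ ht0]; linarith
    have hN0 : 0 ≤ ‖D.HH (I * t)‖ := norm_nonneg _
    have h7 : ‖D.HH (I * t + u) - D.HH (I * t) * cexp (be D t * u)‖ ≤
        1 / 2 * ‖D.HH (I * t) * cexp (be D t * u)‖ :=
      hs1.trans (mul_le_mul_of_nonneg_right hKt (norm_nonneg _))
    have h8 := norm_sub_norm_le (D.HH (I * t + u)) (D.HH (I * t) * cexp (be D t * u))
    have h9 := norm_sub_norm_le (D.HH (I * t) * cexp (be D t * u)) (D.HH (I * t + u))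
    rw [norm_sub_rev] at h9
    have e1 : (2 : ℝ) ≤ Real.exp 1 := by
      have := Real.add_one_le_exp (1 : ℝ); linarith
    constructor
    · have h10 : 1 / 2 * (‖D.HH (I * t)‖ * Real.exp (be D t * u).re) ≤ ‖D.HH (I * t + u)‖ := by
        rw [← hE]; linarith
      refine le_trans ?_ h10
      have h11 : Real.exp (sl D t * u.re - K) ≤ 1 / 2 * Real.exp (be D t * u).re := by
        have h12 : Real.exp (sl D t * u.re - K) * Real.exp 1 ≤ Real.exp (be D t * u).re := by
          rw [← Real.exp_add]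
          apply Real.exp_le_exp.2
          rw [hK]
          linarith
        have h13 := Real.exp_pos (sl D t * u.re - K)
        nlinarith
      calc Real.exp (sl D t * u.re - K) * ‖D.HH (I * t)‖
          ≤ (1 / 2 * Real.exp (be D t * u).re) * ‖D.HH (I * t)‖ := by gcongr
        _ = _ := by ring
    · have h10 : ‖D.HH (I * t + u)‖ ≤ 3 / 2 * (‖D.HH (I * t)‖ * Real.exp (be D t * u).re) := by
        rw [← hE]; linarith
      refine h10.trans ?_
      have h11 : 3 / 2 * Real.exp (be D t * u).re ≤ Real.exp (sl D t * u.re + K) := by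
        have h12 : Real.exp (be D t * u).re * Real.exp 1 ≤ Real.exp (sl D t * u.re + K) := by
          rw [← Real.exp_add]
          apply Real.exp_le_exp.2
          rw [hK]
          linarith
        have h13 := Real.exp_pos (be D t * u).re
        nlinarith
      calc 3 / 2 * (‖D.HH (I * t)‖ * Real.exp (be D t * u).re)
          = (3 / 2 * Real.exp (be D t * u).re) * ‖D.HH (I * t)‖ := by ring
        _ ≤ Real.exp (sl D t * u.re + K) * ‖D.HH (I * t)‖ := by gcongr

theorem XX_symm {D : Dat} (h : IsL D) (z : ℂ) : D.XX (-((starRingEnd ℂ) z)) = (starRingEnd ℂ) (D.XX z) := by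
  have hb := Pool.Agent.W355.GJ.T.b1T D h
  rw [← hb.2.1, ← hb.2.1, ← hb.2.2.1, neg_sq, map_pow]

theorem XX_diff {D : Dat} (h : IsL D) : Differentiable ℂ D.XX := by
  have hb := Pool.Agent.W355.GJ.T.b1T D h
  have e : D.XX = fun z => FF D (z ^ 2) := by
    funext z; rw [hb.2.1]
  rw [e]
  exact hb.1.comp (differentiable_id.pow 2)

/-- far to the right -/
theorem far1 {D : Dat} (h : IsL D) (z : ℂ) (hz : 0 < z.im) (hz2 : D.A + 2 ≤ D.κ * z.re) :
    ‖D.XX z‖ ≤ (1 + 2 * D.A0) * ‖D.HH z‖ := by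
  have ht := Pool.Agent.W355.GJ.T.tailT D h z 1 hz hz2 le_rfl
  have e : ∑ m ∈ Finset.Icc 1 1, D.a m * (m : ℂ) ^ (-(D.κ : ℂ) * z) = 1 := by
    simp [h.a_one]
  rw [e, Nat.cast_one, Real.one_rpow, mul_one, mul_one] at ht
  have := norm_sub_norm_le (D.XX z) (D.HH z)
  linarith

/-- still farther -/
theorem far2 {D : Dat} (h : IsL D) (z : ℂ) (hz : 0 < z.im) (hz2 : D.w + D.A + 2 ≤ D.κ * z.re) :
    ‖D.XX z - D.HH z‖ ≤ 1 / 2 * ‖D.HH z‖ := by
  have hA := h.A_nonneg
  have hA0 := h.A0_one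
  have hk := h.κ_pos
  have hw : 0 < D.w := by
    have := h.w_large
    nlinarith
  have ht := Pool.Agent.W355.GJ.T.tailT D h z 2 hz (by linarith) (by norm_num)
  have e : ∑ m ∈ Finset.Icc 1 2, D.a m * (m : ℂ) ^ (-(D.κ : ℂ) * z) =
      1 + D.a 2 * (2 : ℂ) ^ (-(D.κ : ℂ) * z) := by
    have : Finset.Icc 1 2 = {1, 2} := by decide
    rw [this, Finset.sum_pair (by norm_num)]
    simp [h.a_one]
  rw [e] at ht
  have h2 : ‖(2 : ℂ) ^ (-(D.κ : ℂ) * z)‖ = (2 : ℝ) ^ (-(D.κ * z.re)) := by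
    have := Complex.norm_natCast_cpow_of_pos (n := 2) (by norm_num) (-(D.κ : ℂ) * z)
    push_cast at this
    rw [this]
    congr 1
    simp
  have h3 := h.a_le 2 (by norm_num)
  push_cast at h3
  -- the size of the powers
  obtain ⟨q, hq⟩ : ∃ q : ℝ, q = (2 : ℝ) ^ (-(D.κ * z.re)) := ⟨_, rfl⟩
  have hq0 : 0 < q := by rw [hq]; positivity
  have hA2 : 0 < (2 : ℝ) ^ D.A := by positivity
  have hq1 : D.A0 * (2 : ℝ) ^ D.A * q ≤ 1 / 16000 := by
    have h4 : q ≤ (2 : ℝ) ^ (-(D.w + D.A + 2)) := by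
      rw [hq]
      exact Real.rpow_le_rpow_of_exponent_le (by norm_num) (by linarith)
    have h5 : (2 : ℝ) ^ (-(D.w + D.A + 2)) = ((2 : ℝ) ^ D.w)⁻¹ * ((2 : ℝ) ^ D.A)⁻¹ * (1 / 4) := by
      rw [show -(D.w + D.A + 2) = -D.w + -D.A + -2 by ring, Real.rpow_add (by norm_num),
        Real.rpow_add (by norm_num), Real.rpow_neg (by norm_num), Real.rpow_neg (by norm_num)]
      congr 1
      norm_num [Real.rpow_neg]
    have h6 : 4000 * D.A0 ≤ (2 : ℝ) ^ D.w := by
      refine h.w_large2.trans ?_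
      exact Real.rpow_le_rpow_of_exponent_le (by norm_num) (by linarith)
    have hw2 : 0 < (2 : ℝ) ^ D.w := by positivity
    calc D.A0 * (2 : ℝ) ^ D.A * q ≤ D.A0 * (2 : ℝ) ^ D.A * (((2 : ℝ) ^ D.w)⁻¹ * ((2 : ℝ) ^ D.A)⁻¹ * (1 / 4)) := by
          rw [← h5]; gcongr
      _ = (D.A0 / (2 : ℝ) ^ D.w) * (1 / 4) := by field_simp
      _ ≤ (1 / 4000) * (1 / 4) := by
          apply mul_le_mul_of_nonneg_right _ (by norm_num)
          rw [div_le_iff₀ hw2]
          linarith
      _ = 1 / 16000 := by norm_num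
  have h7 : ‖D.HH z * (D.a 2 * (2 : ℂ) ^ (-(D.κ : ℂ) * z))‖ ≤ 1 / 16000 * ‖D.HH z‖ := by
    rw [norm_mul, norm_mul, h2, ← hq]
    have : ‖D.a 2‖ * q ≤ 1 / 16000 := by
      refine le_trans ?_ hq1
      gcongr
    calc ‖D.HH z‖ * (‖D.a 2‖ * q) ≤ ‖D.HH z‖ * (1 / 16000) := by gcongr
      _ = _ := by ring
  have h8 : 2 * D.A0 * ‖D.HH z‖ * ((2 : ℕ) : ℝ) ^ (D.A + 1 - D.κ * z.re) ≤ 1 / 4000 * ‖D.HH z‖ := by
    have e2 : ((2 : ℕ) : ℝ) ^ (D.A + 1 - D.κ * z.re) = 2 * ((2 : ℝ) ^ D.A * q) := by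
      push_cast
      rw [hq, show D.A + 1 - D.κ * z.re = 1 + D.A + -(D.κ * z.re) by ring,
        Real.rpow_add (by norm_num), Real.rpow_add (by norm_num), Real.rpow_one]
      ring
    rw [e2]
    calc 2 * D.A0 * ‖D.HH z‖ * (2 * ((2 : ℝ) ^ D.A * q)) = 4 * (D.A0 * (2 : ℝ) ^ D.A * q) * ‖D.HH z‖ := by ring
      _ ≤ 4 * (1 / 16000) * ‖D.HH z‖ := by gcongr
      _ = _ := by ring
  have e3 : D.XX z - D.HH z = (D.XX z - D.HH z * (1 + D.a 2 * (2 : ℂ) ^ (-(D.κ : ℂ) * z))) +
      D.HH z * (D.a 2 * (2 : ℂ) ^ (-(D.κ : ℂ) * z)) := by ring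
  rw [e3]
  refine (norm_add_le _ _).trans ?_
  have h9 := norm_nonneg (D.HH z)
  have h10 := add_le_add (ht.trans h8) h7
  refine h10.trans ?_
  linarith

/-- A crude bound for the growth whose exponent does not depend on the radius in the strip
`|Re u| ≤ 1`. -/
theorem crude {D : Dat} (h : IsL D) : ∃ E : ℝ, 0 ≤ E ∧ ∀ R X : ℝ, 1 ≤ R → 0 ≤ X → ∃ T0 : ℝ, 2 ≤ T0 ∧
    ∀ (t : ℝ) (u : ℂ), T0 ≤ t → |u.re| ≤ X → ‖u‖ ≤ R →
      ‖D.XX (I * t + u)‖ ≤ Real.exp ((E * (1 + X)) * Real.log t) * ‖D.HH (I * t)‖ := by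
  have hkc := kc_pos h
  have hc := h.c_pos
  have hk := h.κ_pos
  have hA := h.A_nonneg
  have hA0 := h.A0_one
  refine ⟨(D.A + 3) * D.c + D.κ * D.c + 1, by positivity, ?_⟩
  intro R X hR hX
  obtain ⟨K1, T1, hK1, hT1, hH⟩ := hh h R hR
  obtain ⟨W, hW, hRW⟩ := exW h R
  obtain ⟨K2, T2, hK2, hT2, hcv⟩ := Pool.Agent.W355.GJ.T.convT (up D W) (isL_up h hW)
  obtain ⟨Q, hQ⟩ : ∃ Q : ℝ, Q = K2 + (1 + 2 * D.A0) * Real.exp K1 := ⟨_, rfl⟩
  have hQ0 : 1 ≤ Q := by
    rw [hQ]
    have := Real.exp_pos K1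
    have h3 : 0 ≤ (1 + 2 * D.A0) * Real.exp K1 := by positivity
    linarith
  refine ⟨T1 + T2 + Q + R, by linarith, ?_⟩
  -- it is enough to treat `0 ≤ Re u`
  have key : ∀ (t : ℝ) (u : ℂ), T1 + T2 + Q + R ≤ t → 0 ≤ u.re → u.re ≤ X → ‖u‖ ≤ R →
      ‖D.XX (I * t + u)‖ ≤ Real.exp ((((D.A + 3) * D.c + D.κ * D.c + 1) * (1 + X)) * Real.log t) *
        ‖D.HH (I * t)‖ := by
    intro t u ht hu0 huX huR
    have ht0 : 0 < t := by linarith
    have ht1 : 1 ≤ t := by linarith
    have hlog : 0 ≤ Real.log t := Real.log_nonneg ht1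
    have hQt : Q ≤ Real.exp (Real.log t) := by
      rw [Real.exp_log ht0]; linarith
    have him : (I * (t : ℂ) + u).im = t + u.im := by simp
    have hre : (I * (t : ℂ) + u).re = u.re := by simp
    have hui := abs_le.1 ((abs_im_le_norm u).trans huR)
    have hN0 : 0 ≤ ‖D.HH (I * t)‖ := norm_nonneg _
    rcases le_total (D.κ * u.re) (D.A + 2) with h1 | h1
    · have h2 := hcv t (I * t + u) (by linarith) (by rw [hre]; exact hu0)
        (by rw [hre]; exact h1) (by
          rw [add_sub_cancel_left]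
          have : rr (up D W) ≤ rr (up D W) + 2 := by linarith
          linarith)
      have h3 : ‖D.XX (I * t + u)‖ ≤ K2 * ‖D.HH (I * t)‖ * Real.exp ((D.A + 3) * Om D t) := h2
      refine h3.trans ?_
      have h4 : K2 * Real.exp ((D.A + 3) * Om D t) ≤
          Real.exp ((((D.A + 3) * D.c + D.κ * D.c + 1) * (1 + X)) * Real.log t) := by
        calc K2 * Real.exp ((D.A + 3) * Om D t) ≤ Real.exp (Real.log t) * Real.exp ((D.A + 3) * Om D t) := by
              gcongr
              refine le_trans ?_ hQt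
              rw [hQ]
              have : 0 ≤ (1 + 2 * D.A0) * Real.exp K1 := by positivity
              linarith
          _ = Real.exp (Real.log t + (D.A + 3) * Om D t) := by rw [Real.exp_add]
          _ ≤ _ := by
              apply Real.exp_le_exp.2
              unfold Om
              have h5 : 0 ≤ (((D.A + 3) * D.c + D.κ * D.c + 1) * X) * Real.log t := by positivity
              have h6 : 0 ≤ (D.κ * D.c) * Real.log t := by positivity
              nlinarith
      calc K2 * ‖D.HH (I * t)‖ * Real.exp ((D.A + 3) * Om D t)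
          = (K2 * Real.exp ((D.A + 3) * Om D t)) * ‖D.HH (I * t)‖ := by ring
        _ ≤ _ := by gcongr
    · have h2 := far1 h (I * t + u) (by rw [him]; linarith) (by rw [hre]; exact h1)
      obtain ⟨-, -, -, -, h3⟩ := hH t u (by linarith) huR
      refine h2.trans ?_
      have h4 : (1 + 2 * D.A0) * Real.exp (sl D t * u.re + K1) ≤
          Real.exp ((((D.A + 3) * D.c + D.κ * D.c + 1) * (1 + X)) * Real.log t) := by
        calc (1 + 2 * D.A0) * Real.exp (sl D t * u.re + K1)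
            = ((1 + 2 * D.A0) * Real.exp K1) * Real.exp (sl D t * u.re) := by
              rw [Real.exp_add]; ring
          _ ≤ Real.exp (Real.log t) * Real.exp (sl D t * u.re) := by
              gcongr
              refine le_trans ?_ hQt
              rw [hQ]
              linarith
          _ = Real.exp (Real.log t + sl D t * u.re) := by rw [Real.exp_add]
          _ ≤ _ := by
              apply Real.exp_le_exp.2
              rw [sl_eq]
              have h5 : D.κ * D.c * Real.log t * u.re ≤ D.κ * D.c * Real.log t * X := by gcongr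
              have h6 : 0 ≤ (((D.A + 3) * D.c + 1) * X) * Real.log t := by positivity
              have h7 : 0 ≤ ((D.A + 3) * D.c + D.κ * D.c) * Real.log t := by positivity
              nlinarith
      calc (1 + 2 * D.A0) * ‖D.HH (I * t + u)‖
          ≤ (1 + 2 * D.A0) * (Real.exp (sl D t * u.re + K1) * ‖D.HH (I * t)‖) := by gcongr
        _ = ((1 + 2 * D.A0) * Real.exp (sl D t * u.re + K1)) * ‖D.HH (I * t)‖ := by ring
        _ ≤ _ := by gcongr
  intro t u ht huX huR
  have huX' := abs_le.1 huX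
  rcases le_total 0 u.re with h0 | h0
  · exact key t u ht h0 huX'.2 huR
  · have h1 := key t (-((starRingEnd ℂ) u)) ht (by simpa using h0) (by simp; linarith)
      (by rw [norm_neg, Complex.norm_conj]; exact huR)
    have e : I * (t : ℂ) + (-((starRingEnd ℂ) u)) = -((starRingEnd ℂ) (I * t + u)) := by
      rw [map_add, map_mul, conj_I, conj_ofReal]; ring
    rw [e, XX_symm h, Complex.norm_conj] at h1
    exact h1

end Pool.Agent.U156.SJ
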