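import Pool.Agent.U156.SJ.Zb
import Pool.Agent.U762.JF.Norm
import Pool.Agent.H986R2.K4.AW
import Pool.Agent.H986R2.K4.NL
import Pool.Agent.H986R2.K4.RT
import Pool.Agent.H986R2.K4.Lap
import Pool.Agent.H986R2.K4.Win

set_option autoImplicit false

/-!
# The normalised local situation
-/

namespace Pool.Agent.U156.SJ

open Complex Filter Topology
open Pool.Agent.H471R3.GJ hiding IsL SStir
open Pool.Agent.W355.GJ (IsL SStir)
open Pool.Agent.H986R2.K4 (QQ)
open Pool.Agent.U762.JF (sg ph sg_sq ph_eq ph_near pert)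

theorem normD {D : Dat} (h : IsL D) {y r0 : ℝ} (hy0 : 0 ≤ y) (hZ : ZBG D y) (hyr : y < r0) (hr1 : r0 ≤ 1) :
    ∃ κ : ℝ, 0 < κ ∧ κ ≤ 1 / 2 ∧ ∀ R η : ℝ, 3 ≤ R → 0 < η → ∃ T0 : ℝ, 2 ≤ T0 ∧ ∀ (t : ℝ) (n : ℕ), T0 ≤ t →
      r0 * sl D t ≤ n → (n : ℝ) ≤ 2 * r0 * sl D t →
      QQ κ R n η (fun z => D.XX (I * t + ((n / sl D t : ℝ) : ℂ) * z)) := by
  have hkc := kc_pos h
  obtain ⟨kc, hkcd⟩ : ∃ kc : ℝ, kc = D.κ * D.c := ⟨_, rfl⟩
  rw [← hkcd] at hkc
  have hr00 : 0 < r0 := by linarith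
  obtain ⟨κ, hκ⟩ : ∃ κ : ℝ, κ = (r0 - y) / (2 * r0) := ⟨_, rfl⟩
  have hκ0 : 0 < κ := by rw [hκ]; exact div_pos (by linarith) (by linarith)
  have hκ1 : κ ≤ 1 / 2 := by
    rw [hκ, div_le_iff₀ (by linarith)]
    linarith
  obtain ⟨x0, hx0⟩ : ∃ x0 : ℝ, x0 = (r0 + y) / 2 := ⟨_, rfl⟩
  have hx0κ : r0 * (1 - κ) = x0 := by
    rw [hκ, hx0]
    field_simp
    ring
  refine ⟨κ, hκ0, hκ1, ?_⟩
  intro R η hR hη
  obtain ⟨ε, hε⟩ : ∃ ε : ℝ, ε = min (x0 - y) (min (η * r0 * kc / 2) (κ * r0 * kc / 8)) := ⟨_, rfl⟩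
  have hε0 : 0 < ε := by
    rw [hε]
    refine lt_min (by rw [hx0]; linarith) (lt_min (by positivity) (by positivity))
  have hε1 : ε ≤ x0 - y := by rw [hε]; exact min_le_left _ _
  have hε2 : ε ≤ η * r0 * kc / 2 := by rw [hε]; exact (min_le_right _ _).trans (min_le_left _ _)
  have hε3 : ε ≤ κ * r0 * kc / 8 := by rw [hε]; exact (min_le_right _ _).trans (min_le_right _ _)
  obtain ⟨T1, hT1, hz⟩ := hZ ε (2 * R) hε0 (by linarith)
  obtain ⟨T2, hT2, hp⟩ := pl h hy0 hZ x0 ε (2 * R) (by linarith) hε0 (by linarith)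
  refine ⟨max T1 T2, hT1.trans (le_max_left _ _), ?_⟩
  intro t n ht hn1 hn2
  have ht1 : T1 ≤ t := (le_max_left _ _).trans ht
  have ht2 : T2 ≤ t := (le_max_right _ _).trans ht
  have hlog : 0 < Real.log t := Real.log_pos (by linarith)
  obtain ⟨L, hL⟩ : ∃ L : ℝ, L = Real.log t := ⟨_, rfl⟩
  rw [← hL] at hlog
  have hsl : sl D t = kc * L := by rw [sl_eq, ← hkcd, ← hL]
  have hs0 : 0 < sl D t := by rw [hsl]; positivity
  obtain ⟨r, hr⟩ : ∃ r : ℝ, r = n / sl D t := ⟨_, rfl⟩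
  have hrO : r * sl D t = n := by rw [hr]; exact div_mul_cancel₀ _ hs0.ne'
  have hr1' : r0 ≤ r := by
    rw [hr, le_div_iff₀ hs0]
    exact hn1
  have hr2 : r ≤ 2 * r0 := by
    rw [hr, div_le_iff₀ hs0]
    exact hn2
  have hr0' : 0 < r := by linarith
  have hn0 : (0 : ℝ) ≤ n := Nat.cast_nonneg n
  have hnL : r0 * kc * L ≤ n := by
    rw [hsl] at hn1
    linarith
  have hrw : ∀ z : ℂ, ‖z‖ ≤ R → ‖(r : ℂ) * z‖ ≤ 2 * R := by
    intro z hz
    rw [norm_mul, Complex.norm_real, Real.norm_eq_abs, abs_of_pos hr0']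
    have : r ≤ 2 := by linarith
    exact mul_le_mul this hz (norm_nonneg _) (by norm_num)
  have hre : ∀ z : ℂ, ((r : ℂ) * z).re = r * z.re := fun z => by simp
  have hXd := XX_diff h
  rw [← hr]
  constructor
  · exact hXd.comp ((differentiable_id.const_mul _).const_add _)
  · intro z
    have e : I * t + (r : ℂ) * (-((starRingEnd ℂ) z)) = -((starRingEnd ℂ) (I * t + r * z)) := by
      rw [map_add, map_mul, map_mul, Complex.conj_I, Complex.conj_ofReal, Complex.conj_ofReal]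
      ring
    show D.XX (I * t + (r : ℂ) * (-((starRingEnd ℂ) z))) = (starRingEnd ℂ) (D.XX (I * t + r * z))
    rw [e, XX_symm h]
  · -- far
    intro z hz1 hz2
    have hw1 : x0 ≤ ((r : ℂ) * z).re := by
      rw [hre, ← hx0κ]
      exact mul_le_mul hr1' hz1 (by linarith) hr0'.le
    obtain ⟨k1, k2, -, -⟩ := hz t ((r : ℂ) * z) ht1 (by linarith) (hrw z hz2)
    refine ⟨k1, ?_⟩
    have hlin : HasDerivAt (fun z : ℂ => I * t + (r : ℂ) * z) (r : ℂ) z := by
      have := ((hasDerivAt_id z).const_mul (r : ℂ)).const_add (I * (t : ℂ))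
      rw [mul_one] at this
      exact this
    have e0 : logDeriv (fun z : ℂ => D.XX (I * t + (r : ℂ) * z)) z = r * logDeriv D.XX (I * t + r * z) := by
      have h0 := ((hXd (I * t + r * z)).hasDerivAt.comp z hlin).deriv
      rw [logDeriv_apply, logDeriv_apply]
      have e3 : deriv (fun v : ℂ => D.XX (I * t + (r : ℂ) * v)) z =
        deriv D.XX (I * t + r * z) * r := h0
      rw [e3]; ring
    have e1 : (r : ℂ) * logDeriv D.XX (I * t + r * z) - (n : ℂ) =
        r * (logDeriv D.XX (I * t + r * z) - (sl D t : ℂ)) := by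
      have : (n : ℂ) = (r : ℂ) * (sl D t : ℂ) := by
        rw [← Complex.ofReal_mul, hrO, Complex.ofReal_natCast]
      rw [this]
      ring
    rw [e0, e1, norm_mul, Complex.norm_real, Real.norm_eq_abs, abs_of_pos hr0']
    rw [← hL] at k2
    calc r * ‖logDeriv D.XX (I * t + r * z) - (sl D t : ℂ)‖ ≤ 2 * (ε * L) :=
          mul_le_mul (by linarith) k2 (norm_nonneg _) (by norm_num)
      _ ≤ 2 * (η * r0 * kc / 2 * L) := by gcongr
      _ = η * (r0 * kc * L) := by ring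
      _ ≤ η * n := mul_le_mul_of_nonneg_left hnL hη.le
  · -- near
    have hN0 : 0 ≤ ‖D.HH (I * t)‖ := norm_nonneg _
    have hup0 : ∀ z : ℂ, 0 ≤ z.re → z.re ≤ 1 - κ → ‖z‖ ≤ R → ‖D.XX (I * t + (r : ℂ) * z)‖ ≤
        Real.exp (n * (1 - κ) + ε * L) * ‖D.HH (I * t)‖ := by
      intro z hz0 hz1 hz2
      have hwR := hrw z hz2
      rcases le_total (((r : ℂ) * z).re) x0 with hw | hw
      · have h3 := hp t ((r : ℂ) * z) ht2 (by
          rw [abs_le]
          refine ⟨?_, hw⟩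
          rw [hre]
          have h4 : 0 ≤ r * z.re := by positivity
          have h5 : 0 ≤ x0 := by rw [hx0]; linarith
          linarith) ((Complex.abs_im_le_norm _).trans hwR)
        refine h3.trans ?_
        apply mul_le_mul_of_nonneg_right _ hN0
        apply Real.exp_le_exp.2
        rw [← hL]
        have h6 : sl D t * x0 ≤ n * (1 - κ) := by
          rw [← hx0κ]
          calc sl D t * (r0 * (1 - κ)) = (1 - κ) * (r0 * sl D t) := by ring
            _ ≤ (1 - κ) * n := mul_le_mul_of_nonneg_left hn1 (by linarith)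
            _ = _ := by ring
        linarith
      · obtain ⟨-, -, -, k4⟩ := hz t ((r : ℂ) * z) ht1 (by linarith) hwR
        refine k4.trans ?_
        apply mul_le_mul_of_nonneg_right _ hN0
        apply Real.exp_le_exp.2
        rw [← hL, hre]
        have h6 : sl D t * (r * z.re) = n * z.re := by rw [← hrO]; ring
        have h7 : n * z.re ≤ n * (1 - κ) := mul_le_mul_of_nonneg_left hz1 hn0
        linarith
    have hup : ∀ z : ℂ, |z.re| ≤ 1 - κ → ‖z‖ ≤ R → ‖D.XX (I * t + (r : ℂ) * z)‖ ≤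
        Real.exp (n * (1 - κ) + ε * L) * ‖D.HH (I * t)‖ := by
      intro z hz1 hz2
      rw [abs_le] at hz1
      rcases le_total 0 z.re with h' | h'
      · exact hup0 z h' hz1.2 hz2
      · have h3 := hup0 (-((starRingEnd ℂ) z)) (by simpa using h') (by
          rw [Complex.neg_re, Complex.conj_re]; linarith) (by
          rw [norm_neg, RCLike.norm_conj]; exact hz2)
        have e : I * t + (r : ℂ) * (-((starRingEnd ℂ) z)) = -((starRingEnd ℂ) (I * t + r * z)) := by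
          rw [map_add, map_mul, map_mul, Complex.conj_I, Complex.conj_ofReal, Complex.conj_ofReal]
          ring
        rw [e, XX_symm h, RCLike.norm_conj] at h3
        exact h3
    have hlow : Real.exp (n - ε * L) * ‖D.HH (I * t)‖ ≤ ‖D.XX (I * t + (r : ℂ) * 1)‖ := by
      have hr' : ‖(r : ℂ) * 1‖ ≤ 2 * R := hrw 1 (by rw [norm_one]; linarith)
      have hre1 : ((r : ℂ) * 1).re = r := by simp
      obtain ⟨-, -, k3, -⟩ := hz t ((r : ℂ) * 1) ht1 (by rw [hre1]; linarith) hr'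
      rw [hre1, ← hL, mul_comm (sl D t) r, hrO] at k3
      exact k3
    intro z hz1 hz2
    refine (hup z hz1 hz2).trans ?_
    refine le_trans ?_ (mul_le_mul_of_nonneg_right hlow (Real.exp_pos _).le)
    have e8 : Real.exp (n - ε * L) * ‖D.HH (I * t)‖ * Real.exp (-(κ / 2 * n)) =
        Real.exp ((n - ε * L) + (-(κ / 2 * n))) * ‖D.HH (I * t)‖ := by
      rw [Real.exp_add (n - ε * L)]
      ring
    rw [e8]
    apply mul_le_mul_of_nonneg_right _ hN0
    apply Real.exp_le_exp.2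
    have h5 : ε * L ≤ κ * r0 * kc / 8 * L := mul_le_mul_of_nonneg_right hε3 hlog.le
    have h6 : κ * (r0 * kc * L) ≤ κ * n := mul_le_mul_of_nonneg_left hnL hκ0.le
    nlinarith

/-- `FF` along a vertical line. -/
noncomputable def GD (D : Dat) (t r : ℝ) (z : ℂ) : ℂ := FF D (-(t : ℂ) ^ 2 + 2 * I * t * r * z)

theorem GD_eq {D : Dat} (h : IsL D) {t r : ℝ} (ht : t ≠ 0) (hr : r ≠ 0) (z : ℂ) :
    GD D t r z = D.XX (I * t + r * ph t r z) := by
  have ht' : (t : ℂ) ≠ 0 := by exact_mod_cast ht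
  have hb := Pool.Agent.W355.GJ.T.b1T D h
  rw [ph_eq hr, ← hb.2.1, GD]
  congr 1
  rw [mul_pow, mul_pow, I_sq, sg_sq]
  field_simp
  ring

theorem nfD {D : Dat} (h : IsL D) {y r0 : ℝ} (hy0 : 0 ≤ y) (hZ : ZBG D y) (hyr : y < r0) (hr1 : r0 ≤ 1) :
    ∃ κ : ℝ, 0 < κ ∧ κ ≤ 1 / 2 ∧ ∀ R η : ℝ, 3 ≤ R → 0 < η → ∃ T0 : ℝ, 2 ≤ T0 ∧ ∀ (t : ℝ) (n : ℕ), T0 ≤ t →
      r0 * sl D t ≤ n → (n : ℝ) ≤ 2 * r0 * sl D t → QQ κ R n η (GD D t (n / sl D t)) := by
  have hb := Pool.Agent.W355.GJ.T.b1T D h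
  have hkc := kc_pos h
  obtain ⟨kc, hkcd⟩ : ∃ kc : ℝ, kc = D.κ * D.c := ⟨_, rfl⟩
  rw [← hkcd] at hkc
  obtain ⟨κ, hκ0, hκ1, hN⟩ := normD h hy0 hZ hyr hr1
  refine ⟨κ / 2, by linarith, by linarith, ?_⟩
  intro R η hR hη
  have hr0 : 0 < r0 := lt_of_le_of_lt hy0 hyr
  set η1 : ℝ := min (min 1 (η / 4)) (κ / (16 * (R + 2))) with hη1
  have hη1p : 0 < η1 := lt_min (lt_min one_pos (by linarith)) (by positivity)
  obtain ⟨T0, hT0, hN⟩ := hN (R + 1) η1 (by linarith) hη1p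
  set δ : ℝ := min (κ / 16) (η / 2) with hδ
  have hδ0 : 0 < δ := lt_min (by linarith) (by linarith)
  refine ⟨max (max T0 (Real.exp (1 / (r0 * kc)))) (8 * (R + 1) ^ 2 / δ + 16 * (R + 1)),
    hT0.trans ((le_max_left _ _).trans (le_max_left _ _)), ?_⟩
  intro t n ht hn1 hn2
  have hT1 : T0 ≤ t := ((le_max_left _ _).trans (le_max_left _ _)).trans ht
  have hT2 : Real.exp (1 / (r0 * kc)) ≤ t := ((le_max_right _ _).trans (le_max_left _ _)).trans ht
  have hT3 : 8 * (R + 1) ^ 2 / δ + 16 * (R + 1) ≤ t := (le_max_right _ _).trans ht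
  have ht0 : 0 < t := by linarith
  have hlog : 1 / (r0 * kc) ≤ Real.log t := (Real.le_log_iff_exp_le ht0).2 hT2
  have hsl : sl D t = kc * Real.log t := by rw [sl_eq, ← hkcd]
  have hOm : 1 ≤ r0 * sl D t := by
    rw [hsl]
    rw [div_le_iff₀ (by positivity)] at hlog
    linarith
  have hOm0 : 0 < sl D t := by
    by_contra hc
    push Not at hc
    have : r0 * sl D t ≤ 0 := mul_nonpos_of_nonneg_of_nonpos hr0.le hc
    linarith
  have hn0 : 1 ≤ (n : ℝ) := hOm.trans hn1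
  have hn0' : 1 ≤ n := by exact_mod_cast hn0
  set r : ℝ := n / sl D t with hr
  have hrp : 0 < r := by positivity
  have hr2 : r ≤ 2 := by
    rw [hr, div_le_iff₀ hOm0]
    nlinarith
  have hQ := hN t n hT1 hn1 hn2
  set q : ℝ := 4 * (R + 1) / t with hq
  have hq1 : q ≤ 1 / 4 := by
    rw [hq, div_le_iff₀ ht0]
    have : 0 < 8 * (R + 1) ^ 2 / δ := by positivity
    linarith
  have hq2 : 2 * (R + 1) * q ≤ δ := by
    have h1 : 8 * (R + 1) ^ 2 / δ ≤ t := by nlinarith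
    rw [div_le_iff₀ hδ0] at h1
    rw [hq]
    have : 2 * (R + 1) * (4 * (R + 1) / t) = 8 * (R + 1) ^ 2 / t := by ring
    rw [this, div_le_iff₀ ht0]
    linarith
  have key := pert (φ := ph t r) (φ' := fun z => 1 / sg t r z) (G := GD D t r) hκ0 hκ1 hR le_rfl hη1p
    ((min_le_left _ _).trans (min_le_left _ _)) hn0' hQ
    (by
      unfold GD
      exact hb.1.comp (by fun_prop))
    (by
      intro z
      unfold GD
      rw [← hb.2.2.1]
      congr 1
      simp only [map_add, map_neg, map_mul, map_pow, Complex.conj_ofReal, Complex.conj_I]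
      rw [show (starRingEnd ℂ) (2 : ℂ) = 2 from map_ofNat (starRingEnd ℂ) 2]
      ring)
    hδ0.le (min_le_left _ _)
    (by
      have := min_le_right (min 1 (η / 4)) (κ / (16 * (R + 2)))
      rw [← hη1] at this
      calc η1 * (R + 2) ≤ κ / (16 * (R + 2)) * (R + 2) := by gcongr
        _ = κ / 16 := by field_simp)
    (by
      intro z hz
      obtain ⟨h1, h2, h3⟩ := ph_near (q := q) (R := R + 1) ht0 hrp hz.le (by
        rw [hq]
        gcongr
        nlinarith) hq1 (by linarith)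
      exact ⟨h1, h2.trans hq2, h3.trans hq2, GD_eq h ht0.ne' hrp.ne' z⟩)
  have hfin : 2 * η1 + δ ≤ η := by
    have h1 : η1 ≤ η / 4 := (min_le_left _ _).trans (min_le_right _ _)
    have h2 : δ ≤ η / 2 := min_le_right _ _
    linarith
  exact ⟨key.diff, key.symm, fun z h1 h2 => ⟨(key.far z h1 h2).1,
    (key.far z h1 h2).2.trans (mul_le_mul_of_nonneg_right hfin (Nat.cast_nonneg n))⟩, key.near⟩

end Pool.Agent.U156.SJ
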