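import Pool.Agent.U156.SJ.Chain
import Pool.Agent.W355.GJ.Crit

set_option autoImplicit false

/-!
# The range of hyperbolicity
-/

namespace Pool.Agent.U156.SJ

open Complex Filter Topology Polynomial
open Pool.Agent.H471R3.GJ hiding IsL SStir
open Pool.Agent.W355.GJ (IsL SStir)
open Pool.Agent.W355.GJ.Crit

theorem rangeD {D : Dat} (h : IsL D) {y κ : ℝ} (hy0 : 0 ≤ y) (hy1 : y ≤ 1 / 2)
    (hz : ∀ z : ℂ, D.XX z = 0 → z.re ≤ y) (hκ0 : 0 < κ) (hκ : y * (D.κ * D.c) / 2 < κ) :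
    ∃ N : ℕ, ∀ n d : ℕ, N ≤ n → 1 ≤ d → κ * Real.log d ≤ n → 0 < gam D n ∧ 0 < gam D (n + d) ∧
      ∀ z : ℂ, aeval z (Pool.Agent.H471R3.GJ.jensen D d n) = 0 → z.im = 0 ∧ z.re < 0 := by
  have hkc := kc_pos h
  obtain ⟨q, hq⟩ : ∃ q : ℝ, q = y * (D.κ * D.c) := ⟨_, rfl⟩
  have hq0 : 0 ≤ q := by rw [hq]; positivity
  rw [← hq] at hκ
  have hi : 0 < 1 / κ := by positivity
  obtain ⟨α, hα1, hα2⟩ : ∃ α : ℝ, 1 / κ < α ∧ α * q < 2 := by
    rcases eq_or_lt_of_le hq0 with h0 | h0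
    · exact ⟨1 / κ + 1, by linarith, by rw [← h0]; norm_num⟩
    · have h1 : 1 / κ < 2 / q := by
        rw [div_lt_div_iff₀ hκ0 h0]
        linarith
      refine ⟨(1 / κ + 2 / q) / 2, by linarith, ?_⟩
      have h2 : (1 / κ + 2 / q) / 2 < 2 / q := by linarith
      rwa [lt_div_iff₀ h0] at h2
  obtain ⟨N0, hN0⟩ := sharpZ h hy0 hy1 hz (α := α) (by rw [← hq]; exact hα2)
  obtain ⟨k0, hpos, -, -, hjen, -⟩ := Pool.Agent.W355.GJ.T.factsT D h
  have hb := Pool.Agent.W355.GJ.T.b1T D h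
  obtain ⟨N1, hN1⟩ := eventually_atTop.1 (ev_lin (a := α - 1 / κ) (by linarith) 1)
  refine ⟨max N0 (max k0 N1), ?_⟩
  intro n d hn hd hdn
  have hn0 : N0 ≤ n := (le_max_left _ _).trans hn
  have hnk : k0 ≤ n := ((le_max_left _ _).trans (le_max_right _ _)).trans hn
  have hn1 := hN1 n (((le_max_right _ _).trans (le_max_right _ _)).trans hn)
  have hd0 : (0 : ℝ) < d := by exact_mod_cast hd
  have hdn' : (d : ℝ) ≤ Real.exp (1 / κ * n) := by
    rw [← Real.log_le_iff_le_exp hd0]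
    rw [div_mul_eq_mul_div, one_mul, le_div_iff₀ hκ0]
    linarith
  have hα0 : 0 < α := by linarith
  have hnn : (0 : ℝ) ≤ n := Nat.cast_nonneg n
  obtain ⟨R, hR⟩ : ∃ R : ℝ, R = Real.exp (α * n) := ⟨_, rfl⟩
  have hR0 : 0 < R := by rw [hR]; exact Real.exp_pos _
  have hR1 : 1 ≤ R := by rw [hR]; exact Real.one_le_exp (by positivity)
  have hdR : 2 * (d : ℝ) ≤ R := by
    have e1 : R = Real.exp (1 / κ * n) * Real.exp ((α - 1 / κ) * n) := by
      rw [hR, ← Real.exp_add]; congr 1; ring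
    have e2 : (2 : ℝ) ≤ Real.exp ((α - 1 / κ) * n) := by
      have := Real.add_one_le_exp ((α - 1 / κ) * (n : ℝ))
      linarith
    have e3 : 0 < Real.exp (1 / κ * (n : ℝ)) := Real.exp_pos _
    rw [e1]
    nlinarith
  refine ⟨hpos n hnk, hpos (n + d) (by omega), nhpos D k0 hpos d n hnk hd ?_⟩
  intro z hz'
  have haev : aeval z (Pool.Agent.H471R3.GJ.jensen D d n) =
      ∑ j ∈ Finset.range (d + 1), (d.choose j : ℂ) * iteratedDeriv (n + j) (FF D) 0 * z ^ j := by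
    unfold Pool.Agent.H471R3.GJ.jensen
    rw [map_sum]
    refine Finset.sum_congr rfl fun j _ => ?_
    rw [hb.2.2.2 (n + j)]
    simp
  rw [haev] at hz'
  refine hjen n hnk d R hR0 ?_ ?_ z hz'
  · nlinarith
  · intro w hw hw0
    rw [hR] at hw
    exact hN0 n hn0 w hw hw0

/-- For all large `n` the Jensen polynomials `J^{d,n}` with `κ log d ≤ n` have degree `d` and only
negative roots. -/
def Range (r : ℕ) (F : ℂ → ℂ) (κ : ℝ) : Prop := ∃ N : ℕ, ∀ n d : ℕ, N ≤ n → 1 ≤ d →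
  κ * Real.log d ≤ n → Hyp d (jensenP r F d n)

theorem hyp_of {D : Dat} {r : ℕ} {F : ℂ → ℂ} {c K : ℝ} (h : Scale D r F c K) {d n : ℕ}
    (h4 : 0 < gam D (n + d))
    (h5 : ∀ z : ℂ, aeval z (Pool.Agent.H471R3.GJ.jensen D d n) = 0 → z.im = 0 ∧ z.re < 0) :
    Hyp d (jensenP r F d n) := by
  have hc2 : 0 < c ^ 2 := pow_pos h.hc 2
  constructor
  · apply Polynomial.natDegree_eq_of_degree_eq_some
    have hlead : (jensenP r F d n).coeff d ≠ 0 := by
      have : (jensenP r F d n).coeff d = gamma r F (n + d) := by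
        unfold jensenP
        rw [Polynomial.finsetSum_coeff, Finset.sum_eq_single d]
        · rw [Polynomial.coeff_C_mul_X_pow]
          simp
        · intro j hj hjd
          rw [Polynomial.coeff_C_mul_X_pow]
          rw [if_neg (Ne.symm hjd)]
        · intro hcon
          exfalso
          apply hcon
          simp
      rw [this]
      intro h0
      rw [gam_eq h, h0, mul_zero] at h4
      exact lt_irrefl _ h4
    refine le_antisymm ?_ (Polynomial.le_degree_of_ne_zero hlead)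
    unfold jensenP
    refine (Polynomial.degree_sum_le _ _).trans ?_
    refine Finset.sup_le fun j hj => ?_
    refine (Polynomial.degree_C_mul_X_pow_le _ _).trans ?_
    have : j ≤ d := by
      have := Finset.mem_range.1 hj
      omega
    exact_mod_cast this
  · intro w hw
    rw [zero_iff h] at hw
    have h6 := h5 _ hw
    rw [Complex.div_ofReal_im, Complex.div_ofReal_re] at h6
    constructor
    · rcases div_eq_zero_iff.1 h6.1 with h3 | h3
      · exact h3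
      · exact absurd h3 hc2.ne'
    · by_contra hcon
      push Not at hcon
      have := div_nonneg hcon hc2.le
      linarith [h6.2]

theorem range_scale {D : Dat} {r : ℕ} {F : ℂ → ℂ} {c K : ℝ} (h : Scale D r F c K) {y κ : ℝ}
    (hy0 : 0 ≤ y) (hy1 : y ≤ 1 / 2) (hz : ∀ z : ℂ, D.XX z = 0 → z.re ≤ y) (hκ0 : 0 < κ)
    (hκ : y * (D.κ * D.c) / 2 < κ) : Range r F κ := by
  obtain ⟨N, hN⟩ := rangeD h.isL hy0 hy1 hz hκ0 hκ
  refine ⟨N, fun n d hn hd hdn => ?_⟩
  obtain ⟨-, h4, h5⟩ := hN n d hn hd hdn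
  exact hyp_of h h4 h5

/-- the criterion with a given range -/
theorem crit_range {r : ℕ} {F : ℂ → ℂ} {RH : Prop} (h : LogCriterion r F RH) {κ : ℝ}
    (hR : Range r F κ) : ∃ N : ℕ,
      (∀ n d : ℕ, N ≤ n → 1 ≤ d → κ * Real.log d ≤ n → Hyp d (jensenP r F d n)) ∧
      (RH ↔ ∀ n d : ℕ, 1 ≤ d → (n < N ∨ (n : ℝ) < κ * Real.log d) → NH (jensenP r F d n)) := by
  obtain ⟨C, hC, h1, h2⟩ := h
  obtain ⟨N, hN⟩ := hR
  have hnh : ∀ {d : ℕ} {P : ℝ[X]}, Hyp d P → NH P := fun h => Or.inr fun z hz =>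
    ⟨(h.2 z hz).1, (h.2 z hz).2.le⟩
  refine ⟨N, hN, ?_, ?_⟩
  · intro hRH n d hd _
    rcases lt_or_ge (n : ℝ) (C * Real.log (d + 1)) with h3 | h3
    · exact h2.1 hRH d n hd h3
    · exact hnh (h1 d n hd h3)
  · intro h3
    refine h2.2 fun d n hd _ => ?_
    by_cases h4 : n < N ∨ (n : ℝ) < κ * Real.log d
    · exact h3 n d hd h4
    · push Not at h4
      exact hnh (hN n d h4.1 hd h4.2)

end Pool.Agent.U156.SJ
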