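import Pool.Agent.U156.SJ.Nw

set_option autoImplicit false

/-!
# Real completed L-functions
-/

namespace Pool.Agent.U156.SJ

open UpperHalfPlane hiding I
open MatrixGroups CongruenceSubgroup Filter Topology Complex
open scoped ComplexConjugate
open Pool.Agent.W169.HF (IsForm coef)
open Pool.Agent.W355.UN (facE prodE)
open Pool.Agent.W355.LC (st st_diff)

/-- a completed function which is real in a half-plane is real -/
theorem real_of {Λ : ℂ → ℂ} (hΛ : Differentiable ℂ Λ) {σ : ℝ}
    (h : ∀ s : ℂ, σ < s.re → conj (Λ (conj s)) = Λ s) (s : ℂ) : Λ (conj s) = conj (Λ s) := by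
  have e := Pool.Agent.R838.TW.uniq (Λ := Λ) (Λ' := st Λ) (G := Λ) hΛ (st_diff hΛ) ⟨σ, fun s _ => rfl⟩
    ⟨σ, fun s hs => h s hs⟩
  have h1 := congrFun e (conj s)
  unfold st at h1
  rw [Complex.conj_conj] at h1
  exact h1.symm

theorem prim_self {c : ℕ} [NeZero c] (θ : DirichletCharacter ℂ c) (hθ : θ.IsPrimitive) (a : ℤ) :
    θ.primitiveCharacter (a : ZMod _) = θ (a : ZMod c) := by
  by_cases ha : IsCoprime a (c : ℤ)
  · exact DirichletCharacter.primitiveCharacter_apply_of_isCoprime θ ha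
  · rw [(DirichletCharacter.apply_eq_zero_iff θ a).mpr ha]
    refine (DirichletCharacter.apply_eq_zero_iff _ a).mpr ?_
    rw [show (θ.conductor : ℤ) = c from congrArg _ hθ]
    exact ha

/-- the primitive character of the inverse -/
theorem prim_inv {M : ℕ} [NeZero M] (χ : DirichletCharacter ℂ M) (a : ℤ) :
    (χ⁻¹).primitiveCharacter (a : ZMod _) = conj (χ.primitiveCharacter (a : ZMod _)) := by
  have : NeZero χ.conductor := ⟨DirichletCharacter.conductor_ne_zero _⟩
  obtain ⟨ψ, hψ⟩ : ∃ ψ : DirichletCharacter ℂ χ.conductor, ψ = χ.primitiveCharacter := ⟨_, rfl⟩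
  have h1 : DirichletCharacter.changeLevel χ.conductor_dvd_level ψ⁻¹ = χ⁻¹ := by
    rw [map_inv, hψ, DirichletCharacter.changeLevel_primitiveCharacter]
  have h2 := DirichletCharacter.primitiveCharacter_changeLevel_apply χ.conductor_dvd_level ψ⁻¹ a
  rw [h1] at h2
  have hprim : (ψ⁻¹).IsPrimitive := by
    unfold DirichletCharacter.IsPrimitive
    rw [DirichletCharacter.conductor_inv, hψ]
    exact DirichletCharacter.primitiveCharacter_isPrimitive _
  rw [h2, prim_self _ hprim, ← hψ, ← MulChar.star_apply']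
  rfl

theorem facE_conj {N : ℕ} {f : CuspForm (Gamma0 N : Subgroup (GL (Fin 2) ℝ)) 2} (hre : ∀ n, (coef f n).im = 0)
    {q q' : ℕ} (χ : DirichletCharacter ℂ q) (χ' : DirichletCharacter ℂ q') (hq : q' = q)
    (h : ∀ n : ℕ, χ' (n : ZMod q') = conj (χ (n : ZMod q))) (s : ℂ) :
    conj (facE f χ (conj s)) = facE f χ' s := by
  unfold facE
  have hq2 : (q' : ℝ) = q := by rw [hq]
  rw [map_mul, map_mul, ← Complex.Gamma_conj, Complex.conj_conj, hq2]
  congr 1
  · congr 1
    have hx : (0 : ℝ) ≤ Real.sqrt N * q / (2 * Real.pi) := by positivity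
    have h1 : (((Real.sqrt N * q / (2 * Real.pi) : ℝ) : ℂ)).arg ≠ Real.pi := by
      rw [Complex.arg_ofReal_of_nonneg hx]
      exact Real.pi_ne_zero.symm
    rw [Complex.cpow_conj _ _ h1, Complex.conj_conj, Complex.conj_ofReal]
  · rw [Complex.conj_tsum]
    refine tsum_congr fun n => ?_
    have h1 : conj (coef f (n + 1)) = coef f (n + 1) := Complex.conj_eq_iff_im.2 (hre _)
    have h2 : (((n + 1 : ℕ) : ℂ)).arg ≠ Real.pi := by
      rw [Complex.natCast_arg]
      exact Real.pi_ne_zero.symm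
    have h3 : ((n + 1 : ℕ) : ℂ) ^ (-conj s) = conj (((n + 1 : ℕ) : ℂ) ^ (-s)) := by
      rw [← map_neg, Complex.cpow_conj _ _ h2, Complex.conj_natCast]
    rw [map_mul, map_mul, h1, h3, Complex.conj_conj, h]

theorem prodE_conj {M : ℕ} [NeZero M] (G : Subgroup (DirichletCharacter ℂ M)) [Fintype G]
    {N : ℕ} {f : CuspForm (Gamma0 N : Subgroup (GL (Fin 2) ℝ)) 2} (hre : ∀ n, (coef f n).im = 0) (s : ℂ) :
    conj (prodE G f (conj s)) = prodE G f s := by
  unfold prodE
  rw [map_prod]
  refine Fintype.prod_equiv (Equiv.inv G) _ _ fun χ => ?_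
  have e : (((Equiv.inv G) χ : G) : DirichletCharacter ℂ M) = (χ : DirichletCharacter ℂ M)⁻¹ := rfl
  rw [e]
  refine facE_conj hre (χ : DirichletCharacter ℂ M).primitiveCharacter
    ((χ : DirichletCharacter ℂ M)⁻¹).primitiveCharacter
    (DirichletCharacter.conductor_inv (χ : DirichletCharacter ℂ M)) (fun n => ?_) s
  have h1 := prim_inv (χ : DirichletCharacter ℂ M) (n : ℤ)
  rw [Int.cast_natCast, Int.cast_natCast] at h1
  exact h1

end Pool.Agent.U156.SJ
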