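import Pool.Agent.U156.SJ.Loc
import Pool.Agent.H986R2.K4.SAB

set_option autoImplicit false

/-!
# Control to the right of the zeros, and a convexity bound
-/

namespace Pool.Agent.U156.SJ

open Complex Filter Topology
open Pool.Agent.H471R3.GJ hiding IsL SStir
open Pool.Agent.W355.GJ (IsL SStir)

/-- Control of the completed function to the right of `Re z = y`. -/
def ZBG (D : Dat) (y : ℝ) : Prop := ∀ ε R : ℝ, 0 < ε → 1 ≤ R → ∃ T0 : ℝ, 2 ≤ T0 ∧
  ∀ (t : ℝ) (u : ℂ), T0 ≤ t → y + ε ≤ u.re → ‖u‖ ≤ R → D.XX (I * t + u) ≠ 0 ∧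
    ‖logDeriv D.XX (I * t + u) - (sl D t : ℂ)‖ ≤ ε * Real.log t ∧
    Real.exp (sl D t * u.re - ε * Real.log t) * ‖D.HH (I * t)‖ ≤ ‖D.XX (I * t + u)‖ ∧
    ‖D.XX (I * t + u)‖ ≤ Real.exp (sl D t * u.re + ε * Real.log t) * ‖D.HH (I * t)‖

theorem zb {D : Dat} (h : IsL D) {y : ℝ} (hy0 : 0 ≤ y) (hy1 : y ≤ 1 / 2)
    (hz : ∀ z : ℂ, D.XX z = 0 → z.re ≤ y) : ZBG D y := by
  intro ε R hε hR
  have hkc := kc_pos h
  have hk := h.κ_pos
  have hA := h.A_nonneg
  have hw : 0 < D.w := by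
    have := h.w_large
    nlinarith
  -- the scale
  obtain ⟨lam, hlam⟩ : ∃ lam : ℝ, lam = R + 1 + (D.w + D.A + 2) / D.κ := ⟨_, rfl⟩
  have hq0 : 0 ≤ (D.w + D.A + 2) / D.κ := by positivity
  have hlam1 : 1 ≤ lam := by rw [hlam]; linarith
  have hlam0 : 0 < lam := by linarith
  have hlamR : R + 1 ≤ lam := by rw [hlam]; linarith
  have hlamW : D.w + D.A + 2 ≤ D.κ * lam := by
    have : (D.w + D.A + 2) / D.κ ≤ lam := by rw [hlam]; linarith
    rw [div_le_iff₀ hk] at this
    linarith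
  obtain ⟨R', hR'⟩ : ∃ R' : ℝ, R' = 20 * lam + 1 := ⟨_, rfl⟩
  obtain ⟨K1, T1, hK1, hT1, hH⟩ := hh h R' (by rw [hR']; linarith)
  obtain ⟨E, hE0, hcr⟩ := crude h
  obtain ⟨T2, hT2, hcr⟩ := hcr R' R' (by rw [hR']; linarith) (by rw [hR']; linarith)
  obtain ⟨K0, hK0⟩ : ∃ K0 : ℝ, K0 = E * (1 + R') + D.κ * D.c * R' + 1 := ⟨_, rfl⟩
  have hR'0 : 0 ≤ R' := by rw [hR']; linarith
  have hK00 : 0 < K0 := by rw [hK0]; positivity
  obtain ⟨η, hη⟩ : ∃ η : ℝ, η = ε / 2 := ⟨_, rfl⟩
  have hη0 : 0 < η := by rw [hη]; linarith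
  obtain ⟨η0, hη0'⟩ : ∃ η0 : ℝ, η0 = min (ε / lam) (1 / 4) := ⟨_, rfl⟩
  have hη00 : 0 < η0 := by rw [hη0']; exact lt_min (by positivity) (by norm_num)
  obtain ⟨ε1, hε1, hS⟩ := Pool.Agent.H986R2.K4.sab η0 η K0 hη00 (by rw [hη0']; exact min_le_right _ _)
    hη0 hK00
  refine ⟨max (max T1 T2) (max (Real.exp (1 + (1 / ε1) + K1 / η + K1)) (R' + 3)), ?_, ?_⟩
  · exact hT1.trans ((le_max_left _ _).trans (le_max_left _ _))
  intro t u ht hu huR
  have ht1 : T1 ≤ t := ((le_max_left _ _).trans (le_max_left _ _)).trans ht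
  have ht2 : T2 ≤ t := ((le_max_right _ _).trans (le_max_left _ _)).trans ht
  have ht3 : Real.exp (1 + (1 / ε1) + K1 / η + K1) ≤ t :=
    ((le_max_left _ _).trans (le_max_right _ _)).trans ht
  have ht4 : R' + 3 ≤ t := ((le_max_right _ _).trans (le_max_right _ _)).trans ht
  have ht0 : 0 < t := by linarith
  have hL : 1 + (1 / ε1) + K1 / η + K1 ≤ Real.log t := (Real.le_log_iff_exp_le ht0).2 ht3
  obtain ⟨L, hLd⟩ : ∃ L : ℝ, L = Real.log t := ⟨_, rfl⟩
  rw [← hLd] at hL
  have hi1 : 0 < 1 / ε1 := by positivity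
  have hi2 : 0 < K1 / η := by positivity
  have hL1 : 1 ≤ L := by linarith
  have hLε : 1 ≤ ε1 * L := by
    have : 1 / ε1 ≤ L := by linarith
    rw [div_le_iff₀ hε1] at this
    linarith
  have hLK : K1 ≤ η * L := by
    have : K1 / η ≤ L := by linarith
    rw [div_le_iff₀ hη0] at this
    linarith
  -- the function
  obtain ⟨g, hg⟩ : ∃ g : ℂ → ℂ, g = fun v => D.XX (I * t + (y + lam * v)) / D.HH (I * t + (y + lam * v)) :=
    ⟨_, rfl⟩
  have hlin : ∀ v : ℂ, HasDerivAt (fun v : ℂ => I * (t : ℂ) + (y + lam * v)) (lam : ℂ) v := by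
    intro v
    have := (((hasDerivAt_id v).const_mul (lam : ℂ)).const_add (y : ℂ)).const_add (I * (t : ℂ))
    simpa using this
  have hrev : ∀ v : ℂ, ((y : ℂ) + lam * v).re = y + lam * v.re := by intro v; simp
  have hnorm : ∀ v : ℂ, |v.re| ≤ 10 → |v.im| ≤ 10 → ‖(y : ℂ) + lam * v‖ ≤ R' := by
    intro v h1 h2
    refine (norm_add_le _ _).trans ?_
    rw [norm_real, norm_mul, norm_real, Real.norm_of_nonneg hy0, Real.norm_of_nonneg hlam0.le]
    have h3 : ‖v‖ ≤ 20 := (norm_le_abs_re_add_abs_im v).trans (by linarith)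
    rw [hR']
    nlinarith
  have hXd := XX_diff h
  have hgd : ∀ v : ℂ, 0 < v.re → |v.re| ≤ 10 → |v.im| ≤ 10 → DifferentiableAt ℂ g v ∧ g v ≠ 0 ∧
      logDeriv g v = lam * (logDeriv D.XX (I * t + (y + lam * v)) - logDeriv D.HH (I * t + (y + lam * v))) := by
    intro v hv0 hv1 hv2
    obtain ⟨a1, a2, -, -, -⟩ := hH t ((y : ℂ) + lam * v) ht1 (hnorm v hv1 hv2)
    have hne : D.XX (I * t + (y + lam * v)) ≠ 0 := by
      intro h0
      have h3 := hz _ h0
      have e : (I * (t : ℂ) + (y + lam * v)).re = y + lam * v.re := by simp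
      rw [e] at h3
      nlinarith [mul_pos hlam0 hv0]
    have d1 : DifferentiableAt ℂ (fun v : ℂ => D.XX (I * t + (y + lam * v))) v :=
      (hXd _).comp v (hlin v).differentiableAt
    have d2 : DifferentiableAt ℂ (fun v : ℂ => D.HH (I * t + (y + lam * v))) v :=
      DifferentiableAt.comp v a1 (hlin v).differentiableAt
    refine ⟨?_, ?_, ?_⟩
    · rw [hg]; exact d1.div d2 a2
    · rw [hg]; exact div_ne_zero hne a2
    · rw [hg]
      have e1 := logDeriv_div (f := fun v : ℂ => D.XX (I * t + (y + lam * v)))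
        (g := fun v : ℂ => D.HH (I * t + (y + lam * v))) v hne a2 d1 d2
      rw [e1]
      have e2 : logDeriv (fun v : ℂ => D.XX (I * t + (y + lam * v))) v =
          lam * logDeriv D.XX (I * t + (y + lam * v)) := by
        have := ((hXd (I * t + (y + lam * v))).hasDerivAt.comp v (hlin v)).deriv
        rw [logDeriv_apply, logDeriv_apply]
        have e3 : deriv (fun v : ℂ => D.XX (I * t + (y + lam * v))) v =
          deriv D.XX (I * t + (y + lam * v)) * lam := this
        rw [e3]; ring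
      have e4 : logDeriv (fun v : ℂ => D.HH (I * t + (y + lam * v))) v =
          lam * logDeriv D.HH (I * t + (y + lam * v)) := by
        have := (a1.hasDerivAt.comp v (hlin v)).deriv
        rw [logDeriv_apply, logDeriv_apply]
        have e3 : deriv (fun v : ℂ => D.HH (I * t + (y + lam * v))) v =
          deriv D.HH (I * t + (y + lam * v)) * lam := this
        rw [e3]; ring
      rw [e2, e4]; ring
  have hN : 0 < ‖D.HH (I * t)‖ := by
    have := (hH t 0 ht1 (by rw [norm_zero]; exact hR'0)).2.1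
    rw [add_zero] at this
    exact norm_pos_iff.2 this
  have hSg := hS L g hL1 (by
    intro v hv0 hv1 hv2
    have hv1' : |v.re| ≤ 10 := by rw [abs_of_pos hv0]; exact hv1
    obtain ⟨b1, b2, -⟩ := hgd v hv0 hv1' hv2
    refine ⟨b1, b2, ?_⟩
    have hn := hnorm v hv1' hv2
    obtain ⟨-, a2, -, a4, -⟩ := hH t ((y : ℂ) + lam * v) ht1 hn
    have c1 := hcr t ((y : ℂ) + lam * v) ht2 ((abs_re_le_norm _).trans hn) hn
    have c2 : 0 ≤ sl D t * ((y : ℂ) + lam * v).re := by
      rw [hrev, sl_eq, ← hLd]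
      have : 0 ≤ v.re := hv0.le
      positivity
    rw [hg]
    simp only [norm_div]
    rw [div_le_iff₀ (norm_pos_iff.2 a2)]
    refine c1.trans ?_
    have c3 : Real.exp (-K1) * ‖D.HH (I * t)‖ ≤ ‖D.HH (I * t + (y + lam * v))‖ := by
      refine le_trans ?_ a4
      apply mul_le_mul_of_nonneg_right _ hN.le
      apply Real.exp_le_exp.2
      linarith
    have c4 : Real.exp (E * (1 + R') * Real.log t) ≤ Real.exp (K0 * L) * Real.exp (-K1) := by
      rw [← Real.exp_add]
      apply Real.exp_le_exp.2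
      rw [← hLd, hK0]
      have c5 : K1 ≤ D.κ * D.c * R' * L + 1 * L := by
        have : 0 ≤ D.κ * D.c * R' * L := by positivity
        linarith
      nlinarith
    calc Real.exp (E * (1 + R') * Real.log t) * ‖D.HH (I * t)‖
        ≤ (Real.exp (K0 * L) * Real.exp (-K1)) * ‖D.HH (I * t)‖ := by gcongr
      _ = Real.exp (K0 * L) * (Real.exp (-K1) * ‖D.HH (I * t)‖) := by ring
      _ ≤ _ := by gcongr) (by
    intro v hv0 hv1 hv2
    have hv1' : |v.re| ≤ 10 := by rw [abs_of_pos (by linarith)]; exact hv1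
    have hn := hnorm v hv1' hv2
    obtain ⟨-, a2, -, -, -⟩ := hH t ((y : ℂ) + lam * v) ht1 hn
    have him := abs_le.1 ((abs_im_le_norm _).trans hn)
    have e : (I * (t : ℂ) + (y + lam * v)).re = y + lam * v.re := by simp
    have e' : (I * (t : ℂ) + (y + lam * v)).im = t + ((y : ℂ) + lam * v).im := by simp
    have f1 := far2 h (I * t + (y + lam * v)) (by
        rw [e']
        linarith) (by
      rw [e]
      have : D.κ * lam ≤ D.κ * (y + lam * v.re) := by
        gcongr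
        nlinarith
      linarith)
    have a3 := norm_pos_iff.2 a2
    have f2 := norm_sub_norm_le (D.XX (I * t + (y + lam * v))) (D.HH (I * t + (y + lam * v)))
    have f3 := norm_sub_norm_le (D.HH (I * t + (y + lam * v))) (D.XX (I * t + (y + lam * v)))
    rw [norm_sub_rev] at f3
    have g1 : (2 : ℝ) ≤ Real.exp (ε1 * L) := by
      have := Real.add_one_le_exp (ε1 * L)
      linarith
    rw [hg]
    simp only [norm_div]
    rw [le_div_iff₀ a3, div_le_iff₀ a3]
    constructor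
    · have g2 : Real.exp (-(ε1 * L)) ≤ 1 / 2 := by
        rw [Real.exp_neg, inv_le_comm₀ (Real.exp_pos _) (by norm_num)]
        norm_num
        exact g1
      nlinarith
    · nlinarith)
  -- the point `u`
  have huRre := abs_le.1 ((abs_re_le_norm u).trans huR)
  have huRim := abs_le.1 ((abs_im_le_norm u).trans huR)
  obtain ⟨v, hv⟩ : ∃ v : ℂ, v = (u - y) / lam := ⟨_, rfl⟩
  have hlc : (lam : ℂ) ≠ 0 := by exact_mod_cast hlam0.ne'
  have hvu : (y : ℂ) + lam * v = u := by
    rw [hv, mul_div_cancel₀ _ hlc]; ring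
  have hvre : v.re = (u.re - y) / lam := by
    rw [hv, Complex.div_ofReal_re, sub_re, ofReal_re]
  have hvim : v.im = u.im / lam := by
    rw [hv, Complex.div_ofReal_im, sub_im, ofReal_im, sub_zero]
  have hv1 : η0 ≤ v.re := by
    rw [hη0', hvre]
    refine (min_le_left _ _).trans ?_
    gcongr
    linarith
  have hv2 : v.re ≤ 3 := by
    rw [hvre, div_le_iff₀ hlam0]
    linarith
  have hv3 : |v.im| ≤ 3 := by
    rw [hvim, abs_div, abs_of_pos hlam0, div_le_iff₀ hlam0, abs_le]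
    constructor <;> linarith
  have hv0 : 0 < v.re := by linarith
  obtain ⟨s1, s2, s3⟩ := hSg v hv1 hv2 hv3
  obtain ⟨-, b2, b3⟩ := hgd v hv0 (by rw [abs_of_pos hv0]; linarith) (by linarith)
  obtain ⟨-, a2, a3, a4, a5⟩ := hH t u ht1 (by rw [hR']; linarith)
  rw [hvu] at b3
  have hgv : g v = D.XX (I * t + u) / D.HH (I * t + u) := by
    rw [hg]
    simp only [hvu]
  have hHp : 0 < ‖D.HH (I * t + u)‖ := norm_pos_iff.2 a2
  have hXne : D.XX (I * t + u) ≠ 0 := by
    intro h0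
    apply b2
    rw [hgv, h0, zero_div]
  have hXg : ‖D.XX (I * t + u)‖ = ‖g v‖ * ‖D.HH (I * t + u)‖ := by
    rw [hgv, norm_div, div_mul_cancel₀ _ hHp.ne']
  refine ⟨hXne, ?_, ?_, ?_⟩
  · have e : logDeriv D.XX (I * t + u) - (sl D t : ℂ) =
        logDeriv g v / lam + (logDeriv D.HH (I * t + u) - (sl D t : ℂ)) := by
      rw [b3, mul_div_cancel_left₀ _ hlc]
      ring
    rw [e]
    refine (norm_add_le _ _).trans ?_
    rw [norm_div, norm_real, Real.norm_of_nonneg hlam0.le]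
    have h1 : ‖logDeriv g v‖ / lam ≤ η * L := by
      rw [div_le_iff₀ hlam0]
      have : η * L * 1 ≤ η * L * lam := by gcongr
      linarith
    rw [← hLd]
    have : η * L + η * L = ε * L := by rw [hη]; ring
    linarith
  · rw [hXg, ← hLd]
    calc Real.exp (sl D t * u.re - ε * L) * ‖D.HH (I * t)‖
        ≤ Real.exp (-(η * L) + (sl D t * u.re - K1)) * ‖D.HH (I * t)‖ := by
          gcongr
          have : η * L + η * L = ε * L := by rw [hη]; ring
          linarith
      _ = Real.exp (-(η * L)) * (Real.exp (sl D t * u.re - K1) * ‖D.HH (I * t)‖) := by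
          rw [Real.exp_add]; ring
      _ ≤ ‖g v‖ * ‖D.HH (I * t + u)‖ := by gcongr
  · rw [hXg, ← hLd]
    calc ‖g v‖ * ‖D.HH (I * t + u)‖
        ≤ Real.exp (η * L) * (Real.exp (sl D t * u.re + K1) * ‖D.HH (I * t)‖) := by gcongr
      _ = Real.exp (η * L + (sl D t * u.re + K1)) * ‖D.HH (I * t)‖ := by
          rw [Real.exp_add (η * L)]; ring
      _ ≤ Real.exp (sl D t * u.re + ε * L) * ‖D.HH (I * t)‖ := by
          apply mul_le_mul_of_nonneg_right _ (norm_nonneg _)
          apply Real.exp_le_exp.2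
          have : η * L + η * L = ε * L := by rw [hη]; ring
          linarith

/-- the convexity bound -/
theorem pl {D : Dat} (h : IsL D) {y : ℝ} (hy0 : 0 ≤ y) (hZ : ZBG D y) (x0 ν R : ℝ) (hx : y < x0)
    (hν : 0 < ν) (hR : 1 ≤ R) : ∃ T0 : ℝ, 2 ≤ T0 ∧ ∀ (t : ℝ) (u : ℂ), T0 ≤ t → |u.re| ≤ x0 → |u.im| ≤ R →
      ‖D.XX (I * t + u)‖ ≤ Real.exp (sl D t * x0 + ν * Real.log t) * ‖D.HH (I * t)‖ := by
  have hkc := kc_pos h
  have hx0 : 0 < x0 := lt_of_le_of_lt hy0 hx
  obtain ⟨E, hE0, hcr⟩ := crude h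
  -- the strength of the Gaussian factor and the length of the rectangle
  obtain ⟨M, hM⟩ : ∃ M : ℝ, M = ν / (2 * x0 ^ 2) := ⟨_, rfl⟩
  have hM0 : 0 < M := by rw [hM]; positivity
  have hMx : M * x0 ^ 2 = ν / 2 := by rw [hM]; field_simp
  obtain ⟨H, hH⟩ : ∃ H : ℝ, H = 1 + x0 ^ 2 + E * (1 + x0) / M := ⟨_, rfl⟩
  have hH1 : 1 ≤ H := by
    rw [hH]
    have : 0 ≤ E * (1 + x0) / M := by positivity
    nlinarith [sq_nonneg x0]
  have hHM : E * (1 + x0) + M * x0 ^ 2 ≤ M * H ^ 2 := by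
    have h1 : M * H ≤ M * H ^ 2 := by
      apply mul_le_mul_of_nonneg_left _ hM0.le
      nlinarith
    have h2 : M * H = M + M * x0 ^ 2 + E * (1 + x0) := by
      rw [hH]; field_simp
    linarith
  obtain ⟨R1, hR1⟩ : ∃ R1 : ℝ, R1 = x0 + R + H + 1 := ⟨_, rfl⟩
  have hR11 : 1 ≤ R1 := by rw [hR1]; linarith
  obtain ⟨ε, hε⟩ : ∃ ε : ℝ, ε = min (x0 - y) (ν / 2) := ⟨_, rfl⟩
  have hε0 : 0 < ε := by rw [hε]; exact lt_min (by linarith) (by linarith)
  have hε1 : y + ε ≤ x0 := by
    have := min_le_left (x0 - y) (ν / 2)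
    rw [← hε] at this
    linarith
  have hε2 : ε ≤ ν / 2 := by rw [hε]; exact min_le_right _ _
  obtain ⟨T1, hT1, hz⟩ := hZ ε R1 hε0 hR11
  obtain ⟨T2, hT2, hc⟩ := hcr R1 x0 hR11 hx0.le
  refine ⟨max T1 T2, hT1.trans (le_max_left _ _), ?_⟩
  intro t u ht hu1 hu2
  have ht1 : T1 ≤ t := (le_max_left _ _).trans ht
  have ht2 : T2 ≤ t := (le_max_right _ _).trans ht
  have hl : 0 ≤ Real.log t := Real.log_nonneg (by linarith)
  obtain ⟨L, hL⟩ : ∃ L : ℝ, L = Real.log t := ⟨_, rfl⟩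
  rw [← hL] at hl ⊢
  have hsl : 0 ≤ sl D t := by rw [sl_eq, ← hL]; positivity
  -- the auxiliary function
  obtain ⟨g, hg⟩ : ∃ g : ℂ → ℂ, g = fun v => D.XX (I * t + v) * cexp ((M * L : ℝ) * (v - I * u.im) ^ 2) :=
    ⟨_, rfl⟩
  have hXd := XX_diff h
  have hgd : Differentiable ℂ g := by
    rw [hg]
    refine (hXd.comp ((differentiable_id).const_add _)).mul ?_
    fun_prop
  have hgn : ∀ v : ℂ, ‖g v‖ = ‖D.XX (I * t + v)‖ * Real.exp (M * L * (v.re ^ 2 - (v.im - u.im) ^ 2)) := by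
    intro v
    rw [hg]
    simp only [norm_mul, Complex.norm_exp]
    congr 2
    have e : ((v - I * u.im) ^ 2).re = v.re ^ 2 - (v.im - u.im) ^ 2 := by
      rw [sq, mul_re]
      simp
      ring
    rw [Complex.re_ofReal_mul, e]
  obtain ⟨B, hB⟩ : ∃ B : ℝ, B = Real.exp (sl D t * x0 + ν * L) * ‖D.HH (I * t)‖ := ⟨_, rfl⟩
  rw [← hB]
  have hui := abs_le.1 hu2
  have hur := abs_le.1 hu1
  -- on the vertical sides
  have hside0 : ∀ v : ℂ, v.re = x0 → |v.im - u.im| ≤ H → ‖D.XX (I * t + v)‖ ≤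
      Real.exp (sl D t * x0 + ε * L) * ‖D.HH (I * t)‖ := by
    intro v hv1 hv2
    have hv3 := abs_le.1 hv2
    have hn : ‖v‖ ≤ R1 := by
      refine (norm_le_abs_re_add_abs_im v).trans ?_
      rw [hv1, abs_of_pos hx0, hR1]
      have : |v.im| ≤ R + H := by rw [abs_le]; constructor <;> linarith
      linarith
    have := (hz t v ht1 (by rw [hv1]; exact hε1) hn).2.2.2
    rw [hv1, ← hL] at this
    exact this
  have hside : ∀ v : ℂ, |v.re| = x0 → |v.im - u.im| ≤ H → ‖D.XX (I * t + v)‖ ≤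
      Real.exp (sl D t * x0 + ε * L) * ‖D.HH (I * t)‖ := by
    intro v hv1 hv2
    rcases le_total 0 v.re with h0 | h0
    · rw [abs_of_nonneg h0] at hv1
      exact hside0 v hv1 hv2
    · rw [abs_of_nonpos h0] at hv1
      have h1 := hside0 (-((starRingEnd ℂ) v)) (by simpa using hv1) (by simpa using hv2)
      have e : I * (t : ℂ) + (-((starRingEnd ℂ) v)) = -((starRingEnd ℂ) (I * t + v)) := by
        rw [map_add, map_mul, conj_I, conj_ofReal]; ring
      rw [e, XX_symm h, Complex.norm_conj] at h1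
      exact h1
  have key : ‖g u‖ ≤ B := by
    have hbd : Bornology.IsBounded (Set.Ioo (-x0) x0 ×ℂ Set.Ioo (u.im - H) (u.im + H)) :=
      (Metric.isBounded_Ioo _ _).reProdIm (Metric.isBounded_Ioo _ _)
    refine Complex.norm_le_of_forall_mem_frontier_norm_le hbd hgd.diffContOnCl ?_ ?_
    · intro v hv
      rw [Complex.frontier_reProdIm] at hv
      have hc1 : closure (Set.Ioo (-x0) x0) = Set.Icc (-x0) x0 := closure_Ioo (by linarith)
      have hc2 : closure (Set.Ioo (u.im - H) (u.im + H)) = Set.Icc (u.im - H) (u.im + H) :=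
        closure_Ioo (by linarith)
      have hf1 : frontier (Set.Ioo (-x0) x0) = {-x0, x0} := frontier_Ioo (by linarith)
      have hf2 : frontier (Set.Ioo (u.im - H) (u.im + H)) = {u.im - H, u.im + H} :=
        frontier_Ioo (by linarith)
      rw [hc1, hc2, hf1, hf2] at hv
      rw [hgn, hB]
      rcases hv with ⟨h1, h2⟩ | ⟨h1, h2⟩
      · -- horizontal sides
        have h1' : -x0 ≤ v.re ∧ v.re ≤ x0 := h1
        have h2' : v.im = u.im - H ∨ v.im = u.im + H := h2
        have h3 : (v.im - u.im) ^ 2 = H ^ 2 := by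
          rcases h2' with h | h <;> rw [h] <;> ring
        have h4 : |v.re| ≤ x0 := abs_le.2 h1'
        have h5 : ‖v‖ ≤ R1 := by
          refine (norm_le_abs_re_add_abs_im v).trans ?_
          have : |v.im| ≤ R + H := by
            rcases h2' with h | h <;> rw [h, abs_le] <;> constructor <;> linarith
          rw [hR1]
          linarith
        have h6 := hc t v ht2 h4 h5
        have h7 : v.re ^ 2 ≤ x0 ^ 2 := by
          rw [← sq_abs v.re]
          gcongr
        rw [h3]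
        calc ‖D.XX (I * t + v)‖ * Real.exp (M * L * (v.re ^ 2 - H ^ 2))
            ≤ (Real.exp ((E * (1 + x0)) * Real.log t) * ‖D.HH (I * t)‖) *
              Real.exp (M * L * (v.re ^ 2 - H ^ 2)) := by gcongr
          _ = Real.exp ((E * (1 + x0)) * L + M * L * (v.re ^ 2 - H ^ 2)) * ‖D.HH (I * t)‖ := by
              rw [Real.exp_add, ← hL]; ring
          _ ≤ Real.exp (sl D t * x0 + ν * L) * ‖D.HH (I * t)‖ := by
              apply mul_le_mul_of_nonneg_right _ (norm_nonneg _)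
              apply Real.exp_le_exp.2
              have h8 : L * (E * (1 + x0) + M * x0 ^ 2) ≤ L * (M * H ^ 2) := by gcongr
              have h9 : M * L * v.re ^ 2 ≤ M * L * x0 ^ 2 := by gcongr
              have h10 : 0 ≤ sl D t * x0 := by positivity
              have h11 : 0 ≤ ν * L := by positivity
              nlinarith
      · -- vertical sides
        have h1' : v.re = -x0 ∨ v.re = x0 := h1
        have h2' : u.im - H ≤ v.im ∧ v.im ≤ u.im + H := h2
        have h3 : |v.re| = x0 := by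
          rcases h1' with h | h
          · rw [h, abs_neg, abs_of_pos hx0]
          · rw [h, abs_of_pos hx0]
        have h4 : |v.im - u.im| ≤ H := by rw [abs_le]; constructor <;> linarith [h2'.1, h2'.2]
        have h6 := hside v h3 h4
        have h7 : v.re ^ 2 = x0 ^ 2 := by rw [← sq_abs, h3]
        rw [h7]
        calc ‖D.XX (I * t + v)‖ * Real.exp (M * L * (x0 ^ 2 - (v.im - u.im) ^ 2))
            ≤ (Real.exp (sl D t * x0 + ε * L) * ‖D.HH (I * t)‖) *
              Real.exp (M * L * (x0 ^ 2 - (v.im - u.im) ^ 2)) := by gcongr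
          _ = Real.exp (sl D t * x0 + ε * L + M * L * (x0 ^ 2 - (v.im - u.im) ^ 2)) * ‖D.HH (I * t)‖ := by
              rw [Real.exp_add (sl D t * x0 + ε * L)]; ring
          _ ≤ Real.exp (sl D t * x0 + ν * L) * ‖D.HH (I * t)‖ := by
              apply mul_le_mul_of_nonneg_right _ (norm_nonneg _)
              apply Real.exp_le_exp.2
              have h8 : 0 ≤ M * L * (v.im - u.im) ^ 2 := by positivity
              have h9 : ε * L ≤ ν / 2 * L := by gcongr
              have h10 : M * L * x0 ^ 2 = ν / 2 * L := by rw [← hMx]; ring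
              nlinarith
    · rw [closure_reProdIm, closure_Ioo (by linarith), closure_Ioo (by linarith)]
      exact ⟨hur, ⟨by linarith, by linarith⟩⟩
  have h1 := hgn u
  rw [sub_self] at h1
  refine le_trans ?_ key
  rw [h1]
  have h2 : 1 ≤ Real.exp (M * L * (u.re ^ 2 - 0 ^ 2)) := by
    apply Real.one_le_exp
    have : 0 ≤ u.re ^ 2 := sq_nonneg _
    simp only [ne_eq, OfNat.ofNat_ne_zero, not_false_eq_true, zero_pow, sub_zero]
    positivity
  have h3 := norm_nonneg (D.XX (I * t + u))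
  nlinarith

end Pool.Agent.U156.SJ
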